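import Pool.Agent.Q234.PE.Stm
import Pool.Agent.Q234.PL.L1
import Pool.Agent.Q68.PL.TH

/-!
# Project PE: the ground states of the tori and the energies of the PEPS vectors
-/

set_option autoImplicit false

open scoped BigOperators Matrix
open Finset Pool.Agent.TH235.PP Pool.Agent.Q234.PL

namespace Pool.Agent.Q234.PE.CR

/-- what is known about the ground states `Ψ L` with the energies `E L` -/
def Core (lam C : ℝ) (Ψ : ∀ L : ℕ, (Site L → Fin 2) → ℂ) (E : ℕ → ℝ) : Prop :=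
  (∀ (L : ℕ) [NeZero L], normSq (Ψ L) = 1 ∧ ham (ising lam) L *ᵥ Ψ L = (E L : ℂ) • Ψ L ∧
    IsGappedGround (ham (ising lam) L) (2 * (1 - lam)) (Ψ L)) ∧
  ∀ (L : ℕ) [NeZero L] (D : ℕ), 1 ≤ D → C * (1 + Real.log D) ≤ L →
    ∀ φ : (Site L → Fin 2) → ℂ, IsPEPS D φ →
      (E L + (L : ℝ) ^ 2 * Real.exp (-(C * (1 + Real.log D) ^ 3))) * normSq φ ≤
        (ip φ (ham (ising lam) L *ᵥ φ)).re

theorem torus {N : ℕ} (hN : 1 ≤ N) {lam E Δ : ℝ} {Ψ : Cf N → ℂ} (hΔ : 0 < Δ)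
    (h : IsGround (ringH lam N) E Δ Ψ) :
    normSq (rowProd Ψ) = 1 ∧
      ham (ising lam) (N + 1) *ᵥ rowProd Ψ = ((((N : ℝ) + 1) * E : ℝ) : ℂ) • rowProd Ψ ∧
      IsGappedGround (ham (ising lam) (N + 1)) Δ (rowProd Ψ) := by
  have h1 := Pool.Agent.Q68.PL.prodGap_aux (Cf N) (ringH lam N) E Δ Ψ hΔ.le h (N + 1)
  have h2 := Pool.Agent.Q68.PL.isGround_equiv (Pool.Agent.Q68.PL.TOjob.rowsE N).symm h1
  rw [← Pool.Agent.Q68.PL.THjob.ham_eq lam hN] at h2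
  have h3 := Pool.Agent.Q68.PL.THjob.gapped (Pool.Agent.Q68.PL.THjob.ham_herm lam hN) hΔ h2
  obtain ⟨h4, h5, -⟩ := h2
  refine ⟨h4, ?_, h3⟩
  have e : (((N : ℝ) + 1) * E : ℝ) = ((N + 1 : ℕ) : ℝ) * E := by push_cast; ring
  rw [e]
  exact h5

theorem main (hF : FinalE) (lam : ℝ) (h0 : 0 < lam) (h1 : lam < 1) :
    ∃ (C : ℝ) (Ψ : ∀ L : ℕ, (Site L → Fin 2) → ℂ) (E : ℕ → ℝ), 1 ≤ C ∧ Core lam C Ψ E := by
  obtain ⟨C, hC, hC2⟩ := hF lam h0 h1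
  have hex : ∀ L : ℕ, ∃ (Ψ : (Site L → Fin 2) → ℂ) (E : ℝ), ∀ [NeZero L],
      (normSq Ψ = 1 ∧ ham (ising lam) L *ᵥ Ψ = (E : ℂ) • Ψ ∧
        IsGappedGround (ham (ising lam) L) (2 * (1 - lam)) Ψ) ∧
      ∀ D : ℕ, 1 ≤ D → 2 * C * (1 + Real.log D) ≤ L →
        ∀ φ : (Site L → Fin 2) → ℂ, IsPEPS D φ →
          (E + (L : ℝ) ^ 2 * Real.exp (-(2 * C * (1 + Real.log D) ^ 3))) * normSq φ ≤
            (ip φ (ham (ising lam) L *ᵥ φ)).re := by
    intro L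
    match L with
    | 0 => exact ⟨fun _ => 0, 0, fun {h} => absurd rfl h.out⟩
    | 1 =>
      obtain ⟨h2, h3⟩ := L1.one lam h0 h1
      have h4 := h3
      obtain ⟨E, hE, -⟩ := h4
      refine ⟨L1.del, E, fun {_} => ⟨⟨h2, hE, h3⟩, fun D hD hDL => ?_⟩⟩
      exfalso
      have hlog : 0 ≤ Real.log D := Real.log_nonneg (by exact_mod_cast hD)
      push_cast at hDL
      nlinarith
    | N + 2 =>
      obtain ⟨E, Ψ, hg, hE⟩ := hC2 (N + 1) (by omega)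
      have hT := torus (N := N + 1) (by omega) (by linarith : 0 < 2 * (1 - lam)) hg
      refine ⟨rowProd Ψ, (((N + 1 : ℕ) : ℝ) + 1) * E, fun {_} => ⟨hT, fun D hD hDL φ hφ => ?_⟩⟩
      have hlog : 0 ≤ Real.log D := Real.log_nonneg (by exact_mod_cast hD)
      have e1 : ((N + 2 : ℕ) : ℝ) = ((N + 1 : ℕ) : ℝ) + 1 := by push_cast; ring
      rw [e1] at hDL ⊢
      have h5 := hE D hD (by
        have : C * (1 + Real.log D) ≤ 2 * C * (1 + Real.log D) := by nlinarith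
        linarith) φ hφ
      refine le_trans ?_ h5
      refine mul_le_mul_of_nonneg_right ?_ (Pool.Agent.Q234.PL.Rg.normSq_nonneg _)
      have h6 : Real.exp (-(2 * C * (1 + Real.log D) ^ 3)) ≤ Real.exp (-(C * (1 + Real.log D) ^ 3)) := by
        apply Real.exp_le_exp.2
        have : 0 ≤ C * (1 + Real.log D) ^ 3 := by positivity
        linarith
      have h7 := mul_le_mul_of_nonneg_left h6 (sq_nonneg (((N + 1 : ℕ) : ℝ) + 1))
      linarith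
  choose Ψ E hΨ using hex
  exact ⟨2 * C, Ψ, E, by linarith, fun L _ => (hΨ L).1, fun L _ => (hΨ L).2⟩

end Pool.Agent.Q234.PE.CR
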