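import Pool.Agent.Q234.PE.Stm

/-!
# Project PE: the energy theorem from the statements
-/

set_option autoImplicit false

open scoped BigOperators Matrix
open Finset Pool.Agent.TH235.PP Pool.Agent.Q234.PL

namespace Pool.Agent.Q234.PE.FE

variable {N : ℕ}

theorem normSq_tr (u : Site (N + 1)) (χ : (Site (N + 1) → Fin 2) → ℂ) :
    normSq (tr u χ) = normSq χ := by
  unfold normSq tr
  exact Fintype.sum_equiv ((Equiv.addRight u).arrowCongr (Equiv.refl (Fin 2))).symm _ _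
    fun s => rfl

/-- the parities of the rows of a translate -/
theorem row_par (u : Site (N + 1)) (s : Site (N + 1) → Fin 2) (y : ZMod (N + 1)) :
    (∏ x : Fin (N + 1), sgn (s (row y x + u))) = ∏ x : Fin (N + 1), sgn (s (row (y + u.2) x)) := by
  refine Fintype.prod_equiv (Equiv.addRight (u.1 : Fin (N + 1))) _ _ fun x => ?_
  rfl

theorem sec_tr (σ : ZMod (N + 1) → ℝ) (u : Site (N + 1)) (φ : (Site (N + 1) → Fin 2) → ℂ) :
    tr u (sec σ φ) = sec (fun y => σ (y - u.2)) (tr u φ) := by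
  funext s
  unfold tr sec
  have h : (∀ y, ∏ x : Fin (N + 1), sgn (s (row y x + u)) = ((-(σ y) : ℝ) : ℂ)) ↔
      ∀ y, ∏ x : Fin (N + 1), sgn (s (row y x)) = ((-(σ (y - u.2)) : ℝ) : ℂ) := by
    constructor
    · intro h y
      rw [← h (y - u.2), row_par, sub_add_cancel]
    · intro h y
      rw [row_par, h (y + u.2), add_sub_cancel_right]
  by_cases hc : ∀ y, ∏ x : Fin (N + 1), sgn (s (row y x + u)) = ((-(σ y) : ℝ) : ℂ)
  · rw [if_pos hc, if_pos (h.1 hc)]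
  · rw [if_neg hc, if_neg fun h' => hc (h.2 h')]

theorem inSec_sec (σ : ZMod (N + 1) → ℝ) (φ : (Site (N + 1) → Fin 2) → ℂ) : InSec σ (sec σ φ) := by
  intro s hs
  by_contra hc
  exact hs (if_neg hc)

theorem trans_le {m : ℕ} (R : ℝ → Matrix (Fin (N + 1)) (Fin (N + 1)) ℝ) (W : Fin (N + 1) → ℝ)
    (G : ℝ) (hW2 : ∀ (σ : ZMod (N + 1) → ℝ) (χ : (Site (N + 1) → Fin 2) → ℂ),
      (∀ y, σ y = 1 ∨ σ y = -1) → ∀ v : (Fin m × Fin m → Fin 2) → ℂ, v ≠ 0 →
      (∀ t, ∑ p, v p * χ (tpaste p t) = 0) → normSq χ ≤ G *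
        ∑ y : Fin m, ∑ x : Fin (N + 1), W x * nn R σ χ (row ((y : ℕ) : ZMod (N + 1)) x))
    (σ : ZMod (N + 1) → ℝ) (hσ : ∀ y, σ y = 1 ∨ σ y = -1) (φ : (Site (N + 1) → Fin 2) → ℂ)
    (hcov : ∀ u v : Site (N + 1),
      nn R (fun y => σ (y - u.2)) (tr u (sec σ φ)) v = nn R σ (sec σ φ) (v - u))
    (hker : ∀ u : Site (N + 1), ∃ v : (Fin m × Fin m → Fin 2) → ℂ, v ≠ 0 ∧
      ∀ (σ : ZMod (N + 1) → ℝ) (t : Site (N + 1) → Fin 2),
        ∑ p, v p * sec σ (tr u φ) (tpaste p t) = 0) (u : Site (N + 1)) :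
    normSq (sec σ φ) ≤ G * ∑ y : Fin m, ∑ x : Fin (N + 1), W x *
        nn R σ (sec σ φ) (row ((y : ℕ) : ZMod (N + 1)) x - u) := by
  obtain ⟨v, hv0, hv⟩ := hker u
  have h2 := hW2 (fun y => σ (y - u.2)) (tr u (sec σ φ)) (fun y => hσ _) v hv0 (fun t => by
    rw [sec_tr]
    exact hv _ t)
  rw [normSq_tr] at h2
  simp only [hcov] at h2
  exact h2

theorem sum_trans {m : ℕ} (W : Fin (N + 1) → ℝ) (F : Site (N + 1) → ℝ) :
    ∑ u : Site (N + 1), ∑ y : Fin m, ∑ x : Fin (N + 1), W x *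
      F (row ((y : ℕ) : ZMod (N + 1)) x - u) = m * (∑ x, W x) * ∑ v, F v := by
  rw [sum_comm]
  have h2 : ∀ y : Fin m, ∑ u : Site (N + 1), ∑ x : Fin (N + 1), W x *
      F (row ((y : ℕ) : ZMod (N + 1)) x - u) = (∑ x, W x) * ∑ v, F v := by
    intro y
    rw [sum_comm, sum_mul]
    refine sum_congr rfl fun x _ => ?_
    rw [← mul_sum]
    congr 1
    exact (Equiv.subLeft (row ((y : ℕ) : ZMod (N + 1)) x)).sum_comp F
  simp only [h2]
  rw [sum_const, card_univ, Fintype.card_fin, nsmul_eq_mul]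
  ring

theorem main (hL : LocalC) (hT : TorCov) (hE : SecE) (hS : SecSum) (hK : KernelPar)
    (hP : PepsTr) (hNu : NumE) (hR : RingE) : FinalE := by
  intro lam h0 h1
  obtain ⟨C, hC1, hC2, hC3, hC4⟩ := hNu lam h0 h1
  refine ⟨216 * C, by linarith, fun N hN => ?_⟩
  obtain ⟨R, E, Ψ, hRoots, hg, -, hRE⟩ := hR N lam hN h0.le h1
  refine ⟨E, Ψ, hg, fun D hD hDN φ hφ => ?_⟩
  obtain ⟨m, hm1, hm2, hm3⟩ := hC4 D hD
  have hlog : 0 ≤ Real.log D := Real.log_nonneg (by exact_mod_cast hD)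
  have hCm : C * m ≤ N + 1 := by
    have h2 : C * m ≤ C * (6 * (1 + Real.log D)) := mul_le_mul_of_nonneg_left hm2 (by linarith)
    nlinarith
  obtain ⟨hmN, h2m, hs⟩ := hC2 m N hm1 hCm
  obtain ⟨W, hW0, hW1, hW2⟩ := hL lam h0 h1 N m R hm1 h2m hs hRoots
  set n : ℝ := (N : ℝ) + 1 with hn
  have hn0 : 0 < n := by rw [hn]; positivity
  -- the exponents
  have hexp : Real.exp (-(216 * C * (1 + Real.log D) ^ 3)) ≤ Real.exp (-(C * (m : ℝ) ^ 3)) := by
    apply Real.exp_le_exp.2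
    have h2 : (m : ℝ) ^ 3 ≤ (6 * (1 + Real.log D)) ^ 3 :=
      pow_le_pow_left₀ (Nat.cast_nonneg m) hm2 3
    have h3 : C * (m : ℝ) ^ 3 ≤ C * (6 * (1 + Real.log D)) ^ 3 :=
      mul_le_mul_of_nonneg_left h2 (by linarith)
    have h4 : C * (6 * (1 + Real.log D)) ^ 3 = 216 * C * (1 + Real.log D) ^ 3 := by ring
    linarith
  refine hS N lam _ φ hN fun σ hσ => ?_
  set χ := sec σ φ with hχ
  have hsec := hE N lam E R hN hRE σ χ hσ (inSec_sec σ φ)
  -- all the translates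
  have hu : ∀ u : Site (N + 1), normSq χ ≤ 2 * (m : ℝ) ^ 2 * (1 + 4 * kap m lam) ^ (4 * m ^ 2) *
      ∑ y : Fin m, ∑ x : Fin (N + 1), W x *
        nn R σ χ (row ((y : ℕ) : ZMod (N + 1)) x - u) :=
    trans_le R W _ hW2 σ hσ φ (fun u v => hT N lam R h0 hRoots σ _ hσ (inSec_sec σ φ) u v)
      (fun u => hK N m D (tr u φ) hmN hm3 (hP N D φ u hφ))
  have hsum : ∑ u : Site (N + 1), ∑ y : Fin m, ∑ x : Fin (N + 1), W x *
      nn R σ χ (row ((y : ℕ) : ZMod (N + 1)) x - u) =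
      m * (∑ x, W x) * ∑ v, nn R σ χ v := sum_trans W _
  set T := ∑ v, nn R σ χ v with hTdef
  have hT0 : 0 ≤ T := sum_nonneg fun v _ => Pool.Agent.Q234.PL.Rg.normSq_nonneg _
  have htot : n ^ 2 * normSq χ ≤ 2 * (m : ℝ) ^ 2 * (1 + 4 * kap m lam) ^ (4 * m ^ 2) *
      (m * (∑ x, W x) * T) := by
    rw [← hsum, mul_sum]
    refine le_trans (le_of_eq ?_) (sum_le_sum fun u (_ : u ∈ univ) => hu u)
    rw [sum_const, card_univ, nsmul_eq_mul]
    congr 1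
    rw [Fintype.card_prod, ZMod.card, hn]
    push_cast
    ring
  have hκ : 0 ≤ kap m lam := by
    unfold kap hh
    have : 0 < 1 - lam := by linarith
    positivity
  have h1l : 0 < 1 - lam := by linarith
  have hfin : n ^ 2 * normSq χ ≤ (1 / 2) * (Real.exp (C * (m : ℝ) ^ 3) * T) := by
    have h2 : 2 * (m : ℝ) ^ 2 * (1 + 4 * kap m lam) ^ (4 * m ^ 2) * (m * (∑ x, W x) * T) ≤
        2 * (m : ℝ) ^ 2 * (1 + 4 * kap m lam) ^ (4 * m ^ 2) *
          (m * (72 * (m : ℝ) ^ 2 * kap m lam ^ 4 / (1 - lam) ^ 2) * T) := by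
      refine mul_le_mul_of_nonneg_left ?_ (by positivity)
      refine mul_le_mul_of_nonneg_right ?_ hT0
      exact mul_le_mul_of_nonneg_left hW1 (by positivity)
    have h3 : 2 * (m : ℝ) ^ 2 * (1 + 4 * kap m lam) ^ (4 * m ^ 2) *
          (m * (72 * (m : ℝ) ^ 2 * kap m lam ^ 4 / (1 - lam) ^ 2) * T) =
        (1 / 2) * ((288 * (m : ℝ) ^ 5 * kap m lam ^ 4 * (1 + 4 * kap m lam) ^ (4 * m ^ 2) /
          (1 - lam) ^ 2) * T) := by
      ring
    refine htot.trans (h2.trans (h3.le.trans ?_))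
    refine mul_le_mul_of_nonneg_left ?_ (by norm_num)
    exact mul_le_mul_of_nonneg_right (hC3 m hm1) hT0
  have hχ0 : 0 ≤ normSq χ := Pool.Agent.Q234.PL.Rg.normSq_nonneg _
  have hlast : n ^ 2 * Real.exp (-(C * (m : ℝ) ^ 3)) * normSq χ ≤ (1 / 2) * T := by
    have h2 := mul_le_mul_of_nonneg_left hfin (Real.exp_pos (-(C * (m : ℝ) ^ 3))).le
    have h3 : Real.exp (-(C * (m : ℝ) ^ 3)) * ((1 / 2) * (Real.exp (C * (m : ℝ) ^ 3) * T)) =
        (1 / 2) * T := by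
      have : Real.exp (-(C * (m : ℝ) ^ 3)) * Real.exp (C * (m : ℝ) ^ 3) = 1 := by
        rw [← Real.exp_add, neg_add_cancel, Real.exp_zero]
      linear_combination ((1 / 2) * T) * this
    linarith
  have h5 : n ^ 2 * Real.exp (-(216 * C * (1 + Real.log D) ^ 3)) * normSq χ ≤ (1 / 2) * T := by
    refine le_trans ?_ hlast
    exact mul_le_mul_of_nonneg_right (mul_le_mul_of_nonneg_left hexp (by positivity)) hχ0
  have h6 : (n * E + n ^ 2 * Real.exp (-(216 * C * (1 + Real.log D) ^ 3))) * normSq χ ≤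
      n * E * normSq χ + (1 / 2) * T := by
    rw [add_mul]
    linarith
  exact h6.trans hsec

end Pool.Agent.Q234.PE.FE
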