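import Pool.Agent.Q234.PE.CR
import Pool.Agent.Q234.PL.FL

/-!
# Project PE: the bond dimension for a fixed region
-/

set_option autoImplicit false

open scoped BigOperators Matrix
open Finset Pool.Agent.TH235.PP Pool.Agent.Q234.PL

namespace Pool.Agent.Q234.PE.FR

open Pool.Agent.Q234.PE.CR

/-- the norm of the interaction -/
theorem pair_norm (lam : ℝ) (h0 : 0 < lam) (h1 : lam < 1) (f : (pair → Fin 2) → ℂ) :
    normSq (isingPair lam *ᵥ f) ≤ 4 * normSq f := by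
  have hx : ∀ q : pair → Fin 2, (isingPair lam *ᵥ f) q =
      -(sgn (q ⟨(0, 0), by simp [pair]⟩)) * f q - (lam : ℂ) * f fun x => q x + 1 := by
    intro q
    unfold Matrix.mulVec dotProduct isingPair
    simp only [sub_mul, Finset.sum_sub_distrib, ite_mul, zero_mul]
    rw [Finset.sum_ite_eq, if_pos (mem_univ _), Finset.sum_ite_eq', if_pos (mem_univ _)]
  have hsg : ∀ a : Fin 2, ‖sgn a‖ = 1 := by
    intro a
    unfold sgn
    split_ifs <;> simp
  have hb : ∀ q : pair → Fin 2, ‖(isingPair lam *ᵥ f) q‖ ^ 2 ≤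
      2 * ‖f q‖ ^ 2 + 2 * ‖f fun x => q x + 1‖ ^ 2 := by
    intro q
    rw [hx q]
    have h2 : ‖-(sgn (q ⟨(0, 0), by simp [pair]⟩)) * f q - (lam : ℂ) * f fun x => q x + 1‖ ≤
        ‖f q‖ + ‖f fun x => q x + 1‖ := by
      refine (norm_sub_le _ _).trans ?_
      rw [norm_mul, norm_neg, hsg, one_mul, norm_mul, Complex.norm_real, Real.norm_eq_abs,
        abs_of_pos h0]
      have := norm_nonneg (f fun x => q x + 1)
      nlinarith
    have h3 := pow_le_pow_left₀ (norm_nonneg _) h2 2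
    nlinarith [sq_nonneg (‖f q‖ - ‖f fun x => q x + 1‖)]
  unfold normSq
  refine (sum_le_sum fun q _ => hb q).trans ?_
  rw [sum_add_distrib, ← mul_sum, ← mul_sum]
  have h4 : ∑ q : pair → Fin 2, ‖f fun x => q x + 1‖ ^ 2 = ∑ q, ‖f q‖ ^ 2 :=
    Fintype.sum_equiv ((Equiv.refl pair).arrowCongr (Equiv.addRight (1 : Fin 2))) _ _ fun q => rfl
  rw [h4]
  linarith

/-- the energy is determined by the reduced state -/
theorem energy_state (hET : EnergyTrace) (hLH : LiftHam) (hHE : HamEq) (lam : ℝ) {L : ℕ} [NeZero L]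
    (hL : 2 ≤ L) {R : Finset (ℤ × ℤ)} (hR : pair ⊆ R)
    (hinj : Set.InjOn (Pool.Agent.H4R2.toTorus L) (R : Set (ℤ × ℤ)))
    (φ : (Site L → Fin 2) → ℂ) (hφ : φ ≠ 0)
    (hT : ∀ u : Site L, ∃ c : ℂ, ‖c‖ = 1 ∧ ∀ s : Site L → Fin 2, (φ fun v => s (v + u)) = c * φ s) :
    ip φ (ham (ising lam) L *ᵥ φ) = (L : ℂ) ^ 2 * ((normSq φ : ℝ) : ℂ) *
      (lift hR (isingPair lam) * Pool.Agent.H4R2.redState R φ).trace := by
  rw [← hHE L lam hL, ← (hLH pair R hR (isingPair lam)).1 L hinj, hET L R _ φ hT]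
  unfold Pool.Agent.H4R2.redState
  rw [Matrix.mul_smul, Matrix.trace_smul, smul_eq_mul]
  have hn : ((Pool.Agent.H4R2.normSq φ : ℝ) : ℂ) ≠ 0 := by
    intro h
    apply hφ
    have h2 : Pool.Agent.H4R2.normSq φ = 0 := by exact_mod_cast h
    unfold Pool.Agent.H4R2.normSq at h2
    have h3 := (sum_eq_zero_iff_of_nonneg fun s _ => sq_nonneg ‖φ s‖).1 h2
    funext s
    have := h3 s (mem_univ _)
    simpa using this
  have e : ((normSq φ : ℝ) : ℂ) = ((Pool.Agent.H4R2.normSq φ : ℝ) : ℂ) := rfl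
  rw [e]
  field_simp

theorem toTorus_inj (R : Finset (ℤ × ℤ)) : ∃ L₀ : ℕ, ∀ (L : ℕ) [NeZero L], L₀ ≤ L →
    Set.InjOn (Pool.Agent.H4R2.toTorus L) (R : Set (ℤ × ℤ)) := by
  refine ⟨2 * Pool.Agent.H4R2.rad R + 1, fun L _ hL x hx y hy hxy => ?_⟩
  have hb : ∀ z ∈ R, z.1.natAbs ≤ Pool.Agent.H4R2.rad R ∧ z.2.natAbs ≤ Pool.Agent.H4R2.rad R := by
    intro z hz
    have := Finset.le_sup (f := fun x : ℤ × ℤ => max x.1.natAbs x.2.natAbs) hz
    exact max_le_iff.1 this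
  obtain ⟨hx1, hx2⟩ := hb x hx
  obtain ⟨hy1, hy2⟩ := hb y hy
  have h1 : ((x.1 : ℤ) : ZMod L) = ((y.1 : ℤ) : ZMod L) := congrArg Prod.fst hxy
  have h2 : ((x.2 : ℤ) : ZMod L) = ((y.2 : ℤ) : ZMod L) := congrArg Prod.snd hxy
  have key : ∀ a b : ℤ, a.natAbs ≤ Pool.Agent.H4R2.rad R → b.natAbs ≤ Pool.Agent.H4R2.rad R →
      ((a : ℤ) : ZMod L) = ((b : ℤ) : ZMod L) → a = b := by
    intro a b ha hb' hab
    rw [ZMod.intCast_eq_intCast_iff_dvd_sub] at hab
    have h3 := Int.eq_zero_of_abs_lt_dvd hab (by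
      rw [abs_lt]
      constructor <;> omega)
    omega
  exact Prod.ext (key _ _ hx1 hy1 h1) (key _ _ hx2 hy2 h2)

/-- numerics -/
theorem numer {C ε X : ℝ} (hC : 1 ≤ C) (hε0 : 0 < ε) (hε : ε ≤ Real.exp (-(16 * C))) (hX : 0 ≤ X)
    (h : Real.exp (-(C * (1 + X) ^ 3)) ≤ 4 * ε) :
    (1 / (4 * C)) * Real.log (1 / ε) ^ (1 / 3 : ℝ) ≤ X := by
  set T := Real.log (1 / ε) with hT
  have hT1 : 16 * C ≤ T := by
    rw [hT, one_div, Real.log_inv]
    have := Real.log_le_log hε0 hε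
    rw [Real.log_exp] at this
    linarith
  have h2 : T - 2 ≤ C * (1 + X) ^ 3 := by
    have h3 := Real.log_le_log (Real.exp_pos _) h
    rw [Real.log_exp, Real.log_mul (by norm_num) hε0.ne'] at h3
    have h4 : Real.log 4 ≤ 2 := by
      have h5 : Real.log 4 = 2 * Real.log 2 := by
        rw [show (4 : ℝ) = 2 ^ 2 by norm_num, Real.log_pow]
        push_cast
        ring
      have := Real.log_two_lt_d9
      linarith
    have h5 : T = -Real.log ε := by rw [hT, one_div, Real.log_inv]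
    linarith
  have hT0 : 0 < T := by linarith
  -- `t = T ^ (1/3)`
  set t := T ^ (1 / 3 : ℝ) with ht
  have ht3 : t ^ 3 = T := by
    rw [ht, ← Real.rpow_natCast, ← Real.rpow_mul hT0.le]
    norm_num
  have ht0 : 0 < t := Real.rpow_pos_of_pos hT0 _
  have ht2 : 2 ≤ t := by
    by_contra hc
    push Not at hc
    have : t ^ 3 < 2 ^ 3 := pow_lt_pow_left₀ hc ht0.le (by norm_num)
    rw [ht3] at this
    linarith
  -- if `X` is smaller then the cube is too small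
  by_contra hc
  push Not at hc
  have hC4 : 0 < 4 * C := by linarith
  have h6 : X < t / (4 * C) := by
    have : (1 / (4 * C)) * t = t / (4 * C) := by ring
    rwa [this] at hc
  have h7 : X ^ 3 ≤ T / (64 * C ^ 3) := by
    have h8 := pow_le_pow_left₀ hX h6.le 3
    have h9 : (t / (4 * C)) ^ 3 = T / (64 * C ^ 3) := by
      rw [div_pow, ht3, mul_pow]
      norm_num
    rwa [h9] at h8
  have h8 : (1 + X) ^ 3 ≤ 4 * (1 + X ^ 3) := by
    nlinarith [mul_nonneg hX (sq_nonneg (X - 1)), sq_nonneg (X - 1), sq_nonneg (X + 1)]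
  have h9 : C * (T / (64 * C ^ 3)) = T / (64 * C ^ 2) := by
    field_simp
  have h10 : T / (64 * C ^ 2) ≤ T / 64 := by
    apply div_le_div_of_nonneg_left hT0.le (by norm_num)
    nlinarith
  have h11 : C * (1 + X) ^ 3 ≤ 4 * C + 4 * (C * (T / (64 * C ^ 3))) := by
    have h12 := mul_le_mul_of_nonneg_left h8 (by linarith : 0 ≤ C)
    have h13 := mul_le_mul_of_nonneg_left h7 (by linarith : 0 ≤ C)
    linarith
  rw [h9] at h11
  linarith

/-- the theorem -/
theorem main (hET : EnergyTrace) (hLH : LiftHam) (hTI : TransInv) (hHE : HamEq) (hTD : TraceDual)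
    {lam C : ℝ} (h0 : 0 < lam) (h1 : lam < 1) (hC : 1 ≤ C)
    {Ψ : ∀ L : ℕ, (Site L → Fin 2) → ℂ} {E : ℕ → ℝ} (hK : Core lam C Ψ E)
    {R : Finset (ℤ × ℤ)} (hR : pair ⊆ R) {ε : ℝ} (hε0 : 0 < ε) (hε : ε ≤ Real.exp (-(16 * C)))
    {D : ℕ} (A : Pool.Agent.H4R2.Tensor 2 D)
    (hA : ∃ L₀ : ℕ, ∀ (L : ℕ) [NeZero L], L₀ ≤ L → Pool.Agent.H4R2.contract A L ≠ 0)
    (hlim : ∃ L₀ : ℕ, ∀ (L : ℕ) [NeZero L], L₀ ≤ L →
      Pool.Agent.H4R2.traceNorm (Pool.Agent.H4R2.redState R (Ψ L) -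
        Pool.Agent.H4R2.redState R (Pool.Agent.H4R2.contract A L)) ≤ 2 * ε) :
    (1 / (4 * C)) * Real.log (1 / ε) ^ (1 / 3 : ℝ) ≤ Real.log D := by
  obtain ⟨L₁, hL₁⟩ := hA
  obtain ⟨L₂, hL₂⟩ := hlim
  obtain ⟨L₃, hL₃⟩ := toTorus_inj R
  obtain ⟨L₄, hL₄⟩ := exists_nat_ge (C * (1 + Real.log D))
  set L := max (max L₁ L₂) (max L₃ (max L₄ 2)) with hL
  have hL2 : 2 ≤ L := (le_max_right _ _).trans ((le_max_right _ _).trans (le_max_right _ _))
  have hNZ : NeZero L := ⟨by omega⟩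
  have h3 : L₁ ≤ L := (le_max_left _ _).trans (le_max_left _ _)
  have h4 : L₂ ≤ L := (le_max_right _ _).trans (le_max_left _ _)
  have h5 : L₃ ≤ L := (le_max_left _ _).trans (le_max_right _ _)
  have h6 : L₄ ≤ L := (le_max_left _ _).trans ((le_max_right _ _).trans (le_max_right _ _))
  set φ := Pool.Agent.H4R2.contract A L with hφ
  have hφ0 : φ ≠ 0 := hL₁ L h3
  have hD : 1 ≤ D := by
    rcases Nat.eq_zero_or_pos D with h | h
    · exfalso
      subst h
      apply hφ0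
      funext s
      rw [hφ]
      unfold Pool.Agent.H4R2.contract
      have : IsEmpty (Pool.Agent.H4R2.Site L → Fin 0) := ⟨fun f => (f 0).elim0⟩
      rw [Fintype.sum_empty]
      rfl
    · exact h
  obtain ⟨⟨hΨ1, hΨ2, hΨ3⟩, hen⟩ := And.intro (hK.1 L) (hK.2 L D hD
    (hL₄.trans (by exact_mod_cast h6)) φ (Pool.Agent.Q234.PL.FL.isPEPS_of A))
  have hΨ0 : Ψ L ≠ 0 := by
    intro h
    rw [h] at hΨ1
    simp [normSq] at hΨ1
  have e1 := energy_state hET hLH hHE lam hL2 hR (hL₃ L h5) φ hφ0 (fun u => ⟨1, norm_one, fun s => by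
    rw [one_mul]
    exact hTI.2 L D A u s⟩)
  have e2 := energy_state hET hLH hHE lam hL2 hR (hL₃ L h5) (Ψ L) hΨ0
    (hTI.1 L lam _ (Ψ L) hΨ1 hΨ3)
  rw [hΨ2, Pool.Agent.Q234.PL.Rg.ip_smul_right, Pool.Agent.Q234.PL.Rg.ip_self, hΨ1] at e2
  set ρ := Pool.Agent.H4R2.redState R φ with hρ
  set τ := Pool.Agent.H4R2.redState R (Ψ L) with hτ
  set H := lift hR (isingPair lam) with hH
  -- the difference of the energies
  have hφn : 0 < normSq φ := by
    rcases (Pool.Agent.Q234.PL.Rg.normSq_nonneg φ).lt_or_eq with h | h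
    · exact h
    · exfalso
      apply hφ0
      have h3 := (sum_eq_zero_iff_of_nonneg fun s (_ : s ∈ univ) => sq_nonneg ‖φ s‖).1 h.symm
      funext s
      have := h3 s (mem_univ _)
      simpa using this
  have htr : ‖(H * (τ - ρ)).trace‖ ≤ 2 * (2 * ε) := by
    have hc : ∀ f, normSq (((1 / 2 : ℂ) • H) *ᵥ f) ≤ normSq f := by
      intro f
      rw [Matrix.smul_mulVec]
      have h7 := (hLH pair R hR (isingPair lam)).2 4 (pair_norm lam h0 h1) f
      have h8 : normSq ((1 / 2 : ℂ) • (H *ᵥ f)) = (1 / 4) * normSq (H *ᵥ f) := by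
        unfold normSq
        rw [mul_sum]
        refine sum_congr rfl fun s _ => ?_
        rw [Pi.smul_apply, smul_eq_mul, norm_mul, mul_pow]
        norm_num
      rw [h8]
      linarith
    have h9 := hTD (R → Fin 2) ((1 / 2 : ℂ) • H) (τ - ρ) hc
    rw [Matrix.smul_mul, Matrix.trace_smul, smul_eq_mul, norm_mul] at h9
    have h10 : ‖(1 / 2 : ℂ)‖ = 1 / 2 := by norm_num
    rw [h10] at h9
    have h11 := hL₂ L h4
    linarith
  have hdiff : (ip φ (ham (ising lam) L *ᵥ φ)).re =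
      normSq φ * (E L) - normSq φ * ((L : ℝ) ^ 2 * ((H * (τ - ρ)).trace).re) := by
    have h7 : ip φ (ham (ising lam) L *ᵥ φ) =
        ((normSq φ : ℝ) : ℂ) * ((E L : ℝ) : ℂ) -
          ((normSq φ * (L : ℝ) ^ 2 : ℝ) : ℂ) * (H * (τ - ρ)).trace := by
      rw [e1, Matrix.mul_sub, Matrix.trace_sub]
      push_cast at e2 ⊢
      linear_combination ((normSq φ : ℝ) : ℂ) * -e2
    rw [h7, Complex.sub_re, ← Complex.ofReal_mul, Complex.ofReal_re, Complex.re_ofReal_mul]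
    ring
  rw [hdiff] at hen
  have hLpos : (0 : ℝ) < (L : ℝ) ^ 2 := by positivity
  have h12 : Real.exp (-(C * (1 + Real.log D) ^ 3)) ≤ 4 * ε := by
    have h13 : -((H * (τ - ρ)).trace).re ≤ 4 * ε := by
      have := Complex.abs_re_le_norm (H * (τ - ρ)).trace
      have h14 := neg_abs_le ((H * (τ - ρ)).trace).re
      linarith
    have h15 : (E L + (L : ℝ) ^ 2 * Real.exp (-(C * (1 + Real.log D) ^ 3))) * normSq φ ≤
        (E L + (L : ℝ) ^ 2 * (4 * ε)) * normSq φ := by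
      refine hen.trans ?_
      have h16 : (L : ℝ) ^ 2 * -((H * (τ - ρ)).trace).re ≤ (L : ℝ) ^ 2 * (4 * ε) :=
        mul_le_mul_of_nonneg_left h13 hLpos.le
      nlinarith
    have h17 := le_of_mul_le_mul_right h15 hφn
    have h18 : (L : ℝ) ^ 2 * Real.exp (-(C * (1 + Real.log D) ^ 3)) ≤ (L : ℝ) ^ 2 * (4 * ε) := by
      linarith
    exact le_of_mul_le_mul_left h18 hLpos
  exact numer hC hε0 hε (Real.log_nonneg (by exact_mod_cast hD)) h12

end Pool.Agent.Q234.PE.FR
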