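import Pool.Agent.Q234.PE.Stm
import Pool.Agent.Q234.PL.Rw

/-!
# Project PE: the local lower bound
-/

set_option autoImplicit false

open scoped BigOperators Matrix
open Finset Pool.Agent.TH235.PP Pool.Agent.Q234.PL

namespace Pool.Agent.Q234.PE.LC

open Pool.Agent.Q234.PL.Rg Pool.Agent.Q234.PL.Rw

variable {N : ℕ}

/-- the norm of `annih` -/
theorem annih_norm' (hJ : JW) (R : Matrix (Fin (N + 1)) (Fin (N + 1)) ℝ) {ε lam : ℝ}
    (hR : RootOf N ε lam R) (w : Fin (N + 1) → ℝ) (κ : ℝ) (hκ : 0 ≤ κ) (hw : w ⬝ᵥ w ≤ κ ^ 2)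
    (φ : Cf N → ℂ) : normSq (annih R w *ᵥ φ) ≤ (2 * (2 * κ)) ^ 2 * normSq φ := by
  have e1 : (R *ᵥ w) ⬝ᵥ (R *ᵥ w) ≤ (2 * κ) ^ 2 := by
    refine (hR.upper w).trans ?_
    nlinarith
  have e2 : (Rᵀ *ᵥ w) ⬝ᵥ (Rᵀ *ᵥ w) = (R *ᵥ w) ⬝ᵥ (R *ᵥ w) := by
    rw [Matrix.dotProduct_mulVec, Matrix.vecMul_transpose, Matrix.mulVec_mulVec, hR.normal,
      ← Matrix.mulVec_mulVec, Matrix.mulVec_transpose, ← Matrix.dotProduct_mulVec]
  have e3 : (Rᵀ *ᵥ w) ⬝ᵥ (Rᵀ *ᵥ w) ≤ (2 * κ) ^ 2 := by rw [e2]; exact e1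
  have h1 := nr_norm_sum Ao (maj_A (N := N) hJ) (R *ᵥ w) φ (2 * κ) (by positivity) e1
  have h2 := nr_norm_sum Bo (maj_B (N := N) hJ) (Rᵀ *ᵥ w) φ (2 * κ) (by positivity) e3
  have h3 : nr (annih R w *ᵥ φ) ≤ 2 * (2 * κ) * nr φ := by
    unfold annih
    rw [Matrix.add_mulVec, Matrix.smul_mulVec]
    refine (nr_add _ _).trans ?_
    rw [nr_smul, Complex.norm_I, one_mul]
    linarith
  rw [← nr_sq, ← nr_sq, ← mul_pow]
  exact pow_le_pow_left₀ (nr_nonneg _) h3 2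

/-- the phases -/
noncomputable def zt (j : ℕ) : ℂ := if j % 2 = 0 then 1 else Complex.I

theorem zt_norm (j : ℕ) : ‖zt j‖ = 1 := by
  unfold zt
  split_ifs
  · exact norm_one
  · exact Complex.norm_I

/-- `w` is the solution for the generator `i` of the block `[0, m)` -/
def IsW (m : ℕ) (R : Matrix (Fin (N + 1)) (Fin (N + 1)) ℝ) (i : ℕ) (w : Fin (N + 1) → ℝ) : Prop :=
  ∀ l : Fin (N + 1), (l : ℕ) < m →
    (R *ᵥ w) l = (if i % 2 = 0 ∧ (l : ℕ) = i / 2 then 1 else 0) ∧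
    (Rᵀ *ᵥ w) l = (if i % 2 = 1 ∧ (l : ℕ) = i / 2 then 1 else 0)

theorem ofNat_val {n j : ℕ} (h : j < n + 1) : ((Fin.ofNat (n + 1) j : Fin (n + 1)) : ℕ) = j := by
  simp [Fin.ofNat, Nat.mod_eq_of_lt h]

/-- the anticommutators with the generators -/
theorem annih_gm (hJ : JW) {m : ℕ} (hm : m ≤ N + 1) (R : Matrix (Fin (N + 1)) (Fin (N + 1)) ℝ)
    (i : ℕ) (w : Fin (N + 1) → ℝ) (hw : IsW m R i w) (j : ℕ) (hj : j < 2 * m) :
    annih R w * gm j + gm j * annih R w =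
      if j = i then (2 * zt i) • (1 : Matrix (Cf N) (Cf N) ℂ) else 0 := by
  have hj2 : j / 2 < m := by omega
  have hv := ofNat_val (n := N) (j := j / 2) (by omega)
  obtain ⟨h1, h2⟩ := hw (Fin.ofNat (N + 1) (j / 2)) (by rw [hv]; exact hj2)
  rw [hv] at h1 h2
  unfold gm
  by_cases hj0 : j % 2 = 0
  · rw [if_pos hj0, annih_A hJ, h1]
    by_cases hji : j = i
    · rw [if_pos hji, if_pos (by constructor <;> omega)]
      unfold zt
      rw [if_pos (by omega)]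
      simp
    · rw [if_neg hji, if_neg (by omega)]
      simp
  · rw [if_neg hj0, annih_B hJ, h2]
    by_cases hji : j = i
    · rw [if_pos hji, if_pos (by constructor <;> omega)]
      unfold zt
      rw [if_neg (by omega)]
      simp [mul_comm]
    · rw [if_neg hji, if_neg (by omega)]
      simp

/-- the generators as Majorana operators -/
theorem gm_props (hJ : JW) {m : ℕ} (hm : m ≤ N + 1) (j : ℕ) :
    (gm j : Matrix (Cf N) (Cf N) ℂ).IsHermitian ∧ gm j * gm j = (1 : Matrix (Cf N) (Cf N) ℂ) ∧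
      ∀ k, j < 2 * m → k < 2 * m → k ≠ j → gm k * gm j = (-(gm j * gm k) : Matrix (Cf N) (Cf N) ℂ) := by
  obtain ⟨⟨h1, h2, h3⟩, -⟩ := hJ N
  have hg : ∀ j : ℕ, (gm j : Matrix (Cf N) (Cf N) ℂ) = Sum.elim Ao Bo
      (if j % 2 = 0 then Sum.inl (Fin.ofNat (N + 1) (j / 2)) else Sum.inr (Fin.ofNat (N + 1) (j / 2))) := by
    intro j
    unfold gm
    split_ifs <;> rfl
  refine ⟨by rw [hg]; exact h1 _, by rw [hg]; exact h2 _, fun k hj hk hjk => ?_⟩
  rw [hg, hg]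
  apply h3
  have vj := ofNat_val (n := N) (j := j / 2) (by omega)
  have vk := ofNat_val (n := N) (j := k / 2) (by omega)
  intro h
  by_cases a : k % 2 = 0 <;> by_cases b : j % 2 = 0
  · rw [if_pos a, if_pos b] at h
    have := congrArg Fin.val (Sum.inl.inj h)
    rw [vj, vk] at this
    omega
  · rw [if_pos a, if_neg b] at h
    exact absurd h (by simp)
  · rw [if_neg a, if_pos b] at h
    exact absurd h (by simp)
  · rw [if_neg a, if_neg b] at h
    have := congrArg Fin.val (Sum.inr.inj h)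
    rw [vj, vk] at this
    omega

/-- `annih` is linear -/
theorem annih_sum (R : Matrix (Fin (N + 1)) (Fin (N + 1)) ℝ) (w : Fin (N + 1) → ℝ) :
    annih R w = ∑ x, ((w x : ℝ) : ℂ) • annih R (ev x) := by
  have h1 : ∀ (M : Matrix (Fin (N + 1)) (Fin (N + 1)) ℝ) (j x : Fin (N + 1)), (M *ᵥ ev x) j = M j x := by
    intro M j x
    unfold ev
    rw [Matrix.mulVec_single_one]
    rfl
  have h2 : ∀ (M : Matrix (Fin (N + 1)) (Fin (N + 1)) ℝ) (j : Fin (N + 1)),
      (((M *ᵥ w) j : ℝ) : ℂ) = ∑ x, ((w x : ℝ) : ℂ) * ((M j x : ℝ) : ℂ) := by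
    intro M j
    have : (M *ᵥ w) j = ∑ x, M j x * w x := rfl
    rw [this]
    push_cast
    exact sum_congr rfl fun x _ => mul_comm _ _
  unfold annih
  simp only [h1, h2]
  simp only [smul_add, sum_add_distrib, smul_sum, sum_smul]
  congr 1
  · rw [sum_comm]
    exact sum_congr rfl fun x _ => sum_congr rfl fun j _ => by rw [smul_smul]
  · rw [sum_comm]
    refine sum_congr rfl fun x _ => sum_congr rfl fun j _ => ?_
    rw [smul_smul, smul_smul, smul_smul]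
    congr 1
    ring

theorem sqrt_nr {n : Type} [Fintype n] [DecidableEq n] (f : n → ℂ) : Real.sqrt (normSq f) = nr f := by
  rw [← nr_sq, Real.sqrt_sq (nr_nonneg _)]

theorem nr_sum {n κ : Type} [Fintype n] [DecidableEq n] (S : Finset κ) (f : κ → n → ℂ) :
    nr (∑ k ∈ S, f k) ≤ ∑ k ∈ S, nr (f k) := by
  classical
  induction S using Finset.induction_on with
  | empty =>
    rw [sum_empty, sum_empty]
    have : nr (0 : n → ℂ) ^ 2 = 0 := by rw [nr_sq]; simp [normSq]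
    rw [pow_eq_zero_iff two_ne_zero] at this
    rw [this]
  | insert a S ha ih =>
    rw [sum_insert ha, sum_insert ha]
    exact (nr_add _ _).trans (by linarith)

/-- the combination of the modes -/
theorem comb {κ n : Type} [Fintype κ] [Fintype n] [DecidableEq n] (w : κ → ℝ) (f : κ → n → ℂ) :
    normSq (∑ x, ((w x : ℝ) : ℂ) • f x) ≤ (∑ x, |w x|) * ∑ x, |w x| * normSq (f x) := by
  have h1 : nr (∑ x, ((w x : ℝ) : ℂ) • f x) ≤ ∑ x, |w x| * nr (f x) := by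
    refine (nr_sum _ _).trans (sum_le_sum fun x _ => ?_)
    rw [nr_smul, Complex.norm_real, Real.norm_eq_abs]
  have h0 : 0 ≤ nr (∑ x, ((w x : ℝ) : ℂ) • f x) := nr_nonneg _
  rw [← nr_sq]
  refine (pow_le_pow_left₀ h0 h1 2).trans ?_
  have h2 := sum_mul_sq_le_sq_mul_sq univ (fun x => Real.sqrt |w x|)
    (fun x => Real.sqrt |w x| * nr (f x))
  have e1 : ∀ x, Real.sqrt |w x| * (Real.sqrt |w x| * nr (f x)) = |w x| * nr (f x) := by
    intro x
    rw [← mul_assoc, Real.mul_self_sqrt (abs_nonneg _)]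
  have e2 : ∀ x, Real.sqrt |w x| ^ 2 = |w x| := fun x => Real.sq_sqrt (abs_nonneg _)
  have e3 : ∀ x, (Real.sqrt |w x| * nr (f x)) ^ 2 = |w x| * normSq (f x) := by
    intro x
    rw [mul_pow, e2, nr_sq]
  simp only [e1, e2, e3] at h2
  exact h2

section torus

variable (σ : ZMod (N + 1) → ℝ) (R : ℝ → Matrix (Fin (N + 1)) (Fin (N + 1)) ℝ)
  (wv : ℝ → ℕ → Fin (N + 1) → ℝ)

/-- the operator belonging to the generator `k` -/
noncomputable def bo (m : ℕ) (k : Fin (m * (2 * m))) :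
    Matrix (Site (N + 1) → Fin 2) (Site (N + 1) → Fin 2) ℂ :=
  loc (row (((k : ℕ) / (2 * m) : ℕ) : ZMod (N + 1)))
    (annih (R (σ (((k : ℕ) / (2 * m) : ℕ) : ZMod (N + 1))))
      (wv (σ (((k : ℕ) / (2 * m) : ℕ) : ZMod (N + 1))) ((k : ℕ) % (2 * m))))

/-- the signs -/
noncomputable def sgk (m : ℕ) (k j : Fin (m * (2 * m))) : ℂ :=
  if (k : ℕ) / (2 * m) = (j : ℕ) / (2 * m) then -1 else 1

theorem cast_ne {a b : ℕ} (ha : a < N + 1) (hb : b < N + 1) (h : a ≠ b) :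
    ((a : ℕ) : ZMod (N + 1)) ≠ ((b : ℕ) : ZMod (N + 1)) := by
  intro h'
  have := congrArg ZMod.val h'
  rw [ZMod.val_cast_of_lt ha, ZMod.val_cast_of_lt hb] at this
  exact h this

theorem div_lt {m : ℕ} (k : Fin (m * (2 * m))) : (k : ℕ) / (2 * m) < m :=
  Nat.div_lt_of_lt_mul (lt_of_lt_of_eq k.2 (mul_comm _ _))

theorem mod_lt {m : ℕ} (hm : 1 ≤ m) (k : Fin (m * (2 * m))) : (k : ℕ) % (2 * m) < 2 * m :=
  Nat.mod_lt _ (by omega)

/-- the inequality of GNSs for the block of the torus -/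
theorem gns (hJ : JW) (hG : GNSs) {m : ℕ} (hm : 1 ≤ m) (hmN : m ≤ N + 1) {lam κ : ℝ} (hκ : 0 ≤ κ)
    (hR : Roots lam N R) (hσ : ∀ y, σ y = 1 ∨ σ y = -1)
    (hw : ∀ ε : ℝ, ε = 1 ∨ ε = -1 → ∀ i < 2 * m, IsW m (R ε) i (wv ε i) ∧
      wv ε i ⬝ᵥ wv ε i ≤ κ ^ 2) (χ : (Site (N + 1) → Fin 2) → ℂ)
    (c : (Fin (m * (2 * m)) → Bool) → ℂ) :
    (∑ s, ‖c s‖) * Real.sqrt (normSq χ) ≤
      (1 + 2 * (2 * κ)) ^ (m * (2 * m)) *
        Real.sqrt (normSq ((∑ s, c s • word (bm N m) s) *ᵥ χ)) +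
      (∑ s, ‖c s‖) * ∑ k : Fin (m * (2 * m)), (1 + 2 * (2 * κ)) ^ (k : ℕ) *
        Real.sqrt (normSq (bo σ R wv m k *ᵥ χ)) := by
  refine hG _ (m * (2 * m)) (bm N m) (bo σ R wv m) (fun k => zt ((k : ℕ) % (2 * m)))
    (sgk m) χ (2 * κ) (by positivity) ?_ ?_ ?_ c
  · intro k
    obtain ⟨h1, h2, -⟩ := gm_props (N := N) hJ hmN ((k : ℕ) % (2 * m))
    refine ⟨loc_isHermitian h1, ?_⟩
    unfold bm
    rw [← loc_mul (row_inj _), h2, loc_one (row_inj _)]
  · intro j k hjk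
    have hkm := mod_lt hm k
    have hjm := mod_lt hm j
    have hkd := div_lt k
    have hjd := div_lt j
    by_cases hy : (k : ℕ) / (2 * m) = (j : ℕ) / (2 * m)
    · have hne : (k : ℕ) % (2 * m) ≠ (j : ℕ) % (2 * m) := by
        intro h
        have h1 := Nat.div_add_mod (k : ℕ) (2 * m)
        have h2 := Nat.div_add_mod (j : ℕ) (2 * m)
        rw [hy, h] at h1
        have h3 : (j : ℕ) < (k : ℕ) := hjk
        omega
      refine ⟨Or.inr (if_pos hy), ?_, ?_⟩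
      · unfold bm sgk
        rw [if_pos hy, hy, ← loc_mul (row_inj _), ← loc_mul (row_inj _), neg_one_smul, ← loc_neg,
          (gm_props (N := N) hJ hmN ((j : ℕ) % (2 * m))).2.2 _ hjm hkm hne]
      · unfold bm bo sgk
        rw [if_pos hy, hy, ← loc_mul (row_inj _), ← loc_mul (row_inj _), neg_one_smul, ← loc_neg]
        congr 1
        rw [eq_neg_iff_add_eq_zero, annih_gm hJ hmN _ _ _
          (hw _ (hσ _) _ hkm).1 _ hjm, if_neg (fun h => hne h.symm)]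
    · have hc := cast_ne (N := N) (by omega : (k : ℕ) / (2 * m) < N + 1)
        (by omega : (j : ℕ) / (2 * m) < N + 1) hy
      refine ⟨Or.inl (if_neg hy), ?_, ?_⟩
      · unfold bm sgk
        rw [if_neg hy, one_smul, loc_comm (row_inj _) (row_inj _) (row_disj hc)]
      · unfold bm bo sgk
        rw [if_neg hy, one_smul, loc_comm (row_inj _) (row_inj _) (row_disj hc)]
  · intro k
    have hkm := mod_lt hm k
    refine ⟨zt_norm _, ?_, ?_⟩
    · unfold bm bo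
      rw [← loc_mul (row_inj _), ← loc_mul (row_inj _), ← loc_add,
        annih_gm hJ hmN _ _ _ (hw _ (hσ _) _ hkm).1 _ hkm, if_pos rfl, loc_smul,
        loc_one (row_inj _)]
    · intro f
      exact normSq_loc_le (row_inj _) _ _ (annih_norm' hJ _ (hR _ (hσ _)) _ κ hκ
        (hw _ (hσ _) _ hkm).2) f

/-- sums over the generators -/
theorem sum_gen {m : ℕ} (f : ℕ → ℕ → ℝ) :
    ∑ k : Fin (m * (2 * m)), f ((k : ℕ) / (2 * m)) ((k : ℕ) % (2 * m)) =
      ∑ y : Fin m, ∑ j : Fin (2 * m), f y j := by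
  rw [← Fintype.sum_prod_type']
  refine (Fintype.sum_equiv finProdFinEquiv _ _ fun x => ?_).symm
  have h1 : ((finProdFinEquiv x : Fin (m * (2 * m))) : ℕ) = (x.2 : ℕ) + 2 * m * (x.1 : ℕ) := rfl
  have h2 := x.2.2
  have h3 : 0 < 2 * m := by omega
  rw [h1, Nat.add_mul_div_left _ _ h3, Nat.add_mul_mod_self_left, Nat.div_eq_of_lt h2,
    Nat.mod_eq_of_lt h2, zero_add]

/-- the norm of one of the vectors -/
theorem bo_norm {m : ℕ} (χ : (Site (N + 1) → Fin 2) → ℂ) (k : Fin (m * (2 * m))) :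
    normSq (bo σ R wv m k *ᵥ χ) ≤
      (∑ x, |wv (σ (((k : ℕ) / (2 * m) : ℕ) : ZMod (N + 1))) ((k : ℕ) % (2 * m)) x|) *
      ∑ x, |wv (σ (((k : ℕ) / (2 * m) : ℕ) : ZMod (N + 1))) ((k : ℕ) % (2 * m)) x| *
        nn R σ χ ((x : ZMod (N + 1)), (((k : ℕ) / (2 * m) : ℕ) : ZMod (N + 1))) := by
  unfold bo
  rw [annih_sum, loc_sum]
  simp only [loc_smul]
  rw [Matrix.sum_mulVec]
  simp only [Matrix.smul_mulVec]
  exact comb _ _

end torus

theorem exact_zero (hJ : JW) (hTH : TorusHam) (hG : GNSs) (hRE : RingE) {lam : ℝ} (h0 : 0 < lam)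
    (h1 : lam < 1) {N m : ℕ} (hm : 1 ≤ m) (hmN : 2 * m ≤ N + 1)
    (hW : ∀ (R : ℝ → Matrix (Fin (N + 1)) (Fin (N + 1)) ℝ), Roots lam N R →
      ∃ wv : ℝ → ℕ → Fin (N + 1) → ℝ, ∀ ε : ℝ, ε = 1 ∨ ε = -1 → ∀ i < 2 * m,
        IsW m (R ε) i (wv ε i) ∧ wv ε i ⬝ᵥ wv ε i ≤ kap m lam ^ 2) (hκ : 0 ≤ kap m lam) :
    ∃ φ₀ : (Site (N + 1) → Fin 2) → ℂ,
      ∀ c : (Fin (m * (2 * m)) → Bool) → ℂ, (∑ s, c s • word (bm N m) s) *ᵥ φ₀ = 0 → c = 0 := by
  obtain ⟨R, E, Ψ, hR, hg, ha, -⟩ := hRE N lam (by omega) h0.le h1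
  obtain ⟨wv, hw⟩ := hW R hR
  set φ₀ : (Site (N + 1) → Fin 2) → ℂ := rowProd Ψ with hφ₀
  have hz : ∀ (y : ZMod (N + 1)) (w : Fin (N + 1) → ℝ), loc (row y) (annih (R (-1)) w) *ᵥ φ₀ = 0 := by
    intro y w
    funext s
    rw [loc_mulVec (row_inj y)]
    have e1 : (fun q => φ₀ (put (row y) q s)) =
        ((∏ z ∈ univ.erase y, Ψ fun x => s (row z x) : ℂ)) • Ψ := by
      funext q
      rw [hφ₀]
      unfold rowProd
      rw [Pi.smul_apply, smul_eq_mul, ← Finset.mul_prod_erase univ _ (mem_univ y), mul_comm]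
      congr 1
      · refine prod_congr rfl fun z hz => ?_
        congr 1
        funext x
        exact put_off q s (row z x) fun j => row_disj (ne_of_mem_erase hz).symm j x
      · congr 1
        funext x
        exact put_apply (row_inj y) q s x
    rw [e1, Matrix.mulVec_smul, ha w, smul_zero]
    rfl
  have hφ1 : normSq φ₀ = 1 := by
    exact (hTH N lam E (2 * (1 - lam)) Ψ (by omega) (by linarith) hg).2
  refine ⟨φ₀, fun c hc => ?_⟩
  have h2 := gns (N := N) (fun _ => -1) R wv hJ hG hm (by omega) hκ hR (fun _ => Or.inr rfl) hw φ₀ c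
  have h3 : ∀ k : Fin (m * (2 * m)), bo (fun _ => -1) R wv m k *ᵥ φ₀ = 0 := fun k => hz _ _
  have h4 : normSq (0 : (Site (N + 1) → Fin 2) → ℂ) = 0 := by simp [normSq]
  simp only [h3, hc, h4, Real.sqrt_zero, mul_zero, sum_const_zero, add_zero, hφ1, Real.sqrt_one,
    mul_one] at h2
  have h5 := (sum_eq_zero_iff_of_nonneg fun s _ => norm_nonneg (c s)).1
    (le_antisymm h2 (sum_nonneg fun s _ => norm_nonneg _))
  funext s
  exact norm_eq_zero.1 (h5 s (mem_univ _))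

/-- the vectors -/
theorem exists_wv (hD : DualW) {lam : ℝ} (h0 : 0 < lam) (h1 : lam < 1) {N m : ℕ} (hm : 1 ≤ m)
    (hmN : 2 * m ≤ N + 1) (hs : 6 * m * lam ^ (N + 1 - 2 * m) ≤ hh m lam * (1 - lam))
    (R : ℝ → Matrix (Fin (N + 1)) (Fin (N + 1)) ℝ) (hR : Roots lam N R) :
    ∃ wv : ℝ → ℕ → Fin (N + 1) → ℝ, ∀ ε : ℝ, ε = 1 ∨ ε = -1 → ∀ i < 2 * m,
      IsW m (R ε) i (wv ε i) ∧ wv ε i ⬝ᵥ wv ε i ≤ kap m lam ^ 2 ∧
        (∑ x, |wv ε i x|) ^ 2 ≤ 18 * m / (1 - lam) ^ 2 * kap m lam ^ 4 := by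
  have hex : ∀ (ε : ℝ) (i : ℕ), ∃ w : Fin (N + 1) → ℝ, (ε = 1 ∨ ε = -1) → i < 2 * m →
      IsW m (R ε) i w ∧ w ⬝ᵥ w ≤ kap m lam ^ 2 ∧
        (∑ x, |w x|) ^ 2 ≤ 18 * m / (1 - lam) ^ 2 * kap m lam ^ 4 := by
    intro ε i
    by_cases hε : ε = 1 ∨ ε = -1
    · by_cases hi : i < 2 * m
      · have hv := ofNat_val (n := N) (j := i / 2) (by omega)
        set l₀ : Fin (N + 1) := Fin.ofNat (N + 1) (i / 2) with hl₀
        have hl : ∀ l : Fin (N + 1), (l = l₀ ↔ (l : ℕ) = i / 2) := fun l => by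
          rw [Fin.ext_iff, hv]
        have hout : ∀ l : Fin (N + 1), m ≤ (l : ℕ) → (Pi.single l₀ 1 : Fin (N + 1) → ℝ) l = 0 := by
          intro l hlm
          rw [Pi.single_apply, if_neg]
          rw [hl]
          omega
        by_cases hi2 : i % 2 = 0
        · obtain ⟨w, hw1, hw2, hw3⟩ := hD N m ε lam (R ε) hε h0 h1 hm hmN hs (hR ε hε)
            (Pi.single l₀ 1) 0 (fun l hlm => ⟨hout l hlm, rfl⟩)
          refine ⟨w, fun _ _ => ⟨fun l hlm => ?_, ?_, ?_⟩⟩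
          · obtain ⟨a, b⟩ := hw1 l hlm
            rw [a, b, Pi.single_apply]
            constructor
            · by_cases hc : l = l₀
              · rw [if_pos hc, if_pos ⟨hi2, (hl l).1 hc⟩]
              · rw [if_neg hc, if_neg fun h => hc ((hl l).2 h.2)]
            · rw [if_neg (by omega)]
              rfl
          · refine hw2.trans (le_of_eq ?_)
            simp
          · refine hw3.trans (le_of_eq ?_)
            simp
        · obtain ⟨w, hw1, hw2, hw3⟩ := hD N m ε lam (R ε) hε h0 h1 hm hmN hs (hR ε hε)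
            0 (Pi.single l₀ 1) (fun l hlm => ⟨rfl, hout l hlm⟩)
          refine ⟨w, fun _ _ => ⟨fun l hlm => ?_, ?_, ?_⟩⟩
          · obtain ⟨a, b⟩ := hw1 l hlm
            rw [a, b, Pi.single_apply]
            constructor
            · rw [if_neg (by omega)]
              rfl
            · by_cases hc : l = l₀
              · rw [if_pos hc, if_pos ⟨by omega, (hl l).1 hc⟩]
              · rw [if_neg hc, if_neg fun h => hc ((hl l).2 h.2)]
          · refine hw2.trans (le_of_eq ?_)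
            simp
          · refine hw3.trans (le_of_eq ?_)
            simp
      · exact ⟨0, fun _ h => absurd h hi⟩
    · exact ⟨0, fun h => absurd h hε⟩
  choose wv hwv using hex
  exact ⟨wv, fun ε hε i hi => hwv ε i hε hi⟩

theorem main (hJ : JW) (hTH : TorusHam) (hG : GNSs) (hRE : RingE) (hD : DualW) (hSp : Span) :
    LocalC := by
  intro lam h0 h1 N m R hm hmN hs hR
  have hκ : 0 ≤ kap m lam := by
    unfold kap hh
    have : 0 < 1 - lam := by linarith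
    positivity
  obtain ⟨wv, hw⟩ := exists_wv hD h0 h1 hm hmN hs R hR
  have hm0 : (0 : ℝ) ≤ m := Nat.cast_nonneg m
  refine ⟨fun x => ∑ j : Fin (2 * m), (∑ x', |wv 1 j x'|) * |wv 1 j x| +
    ∑ j : Fin (2 * m), (∑ x', |wv (-1) j x'|) * |wv (-1) j x|, fun x => by positivity, ?_, ?_⟩
  · have h2 : ∀ ε : ℝ, ε = 1 ∨ ε = -1 →
        ∑ x, ∑ j : Fin (2 * m), (∑ x', |wv ε j x'|) * |wv ε j x| ≤
          36 * (m : ℝ) ^ 2 * kap m lam ^ 4 / (1 - lam) ^ 2 := by
      intro ε hε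
      rw [sum_comm]
      have h3 : ∀ j : Fin (2 * m), ∑ x, (∑ x', |wv ε j x'|) * |wv ε j x| ≤
          18 * m / (1 - lam) ^ 2 * kap m lam ^ 4 := by
        intro j
        rw [← mul_sum, ← pow_two]
        exact (hw ε hε j j.2).2.2
      refine (sum_le_sum fun j _ => h3 j).trans (le_of_eq ?_)
      rw [sum_const, card_univ, Fintype.card_fin, nsmul_eq_mul]
      push_cast
      ring
    rw [sum_add_distrib]
    have h4 := h2 1 (Or.inl rfl)
    have h5 := h2 (-1) (Or.inr rfl)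
    have e : 72 * (m : ℝ) ^ 2 * kap m lam ^ 4 / (1 - lam) ^ 2 =
        36 * (m : ℝ) ^ 2 * kap m lam ^ 4 / (1 - lam) ^ 2 +
        36 * (m : ℝ) ^ 2 * kap m lam ^ 4 / (1 - lam) ^ 2 := by ring
    rw [e]
    exact add_le_add h4 h5
  · intro σ χ hσ v hv0 hv
    obtain ⟨φ₀, hφ₀⟩ := exact_zero hJ hTH hG hRE h0 h1 hm hmN (fun R' hR' => by
      obtain ⟨wv', hw'⟩ := exists_wv hD h0 h1 hm hmN hs R' hR'
      exact ⟨wv', fun ε hε i hi => ⟨(hw' ε hε i hi).1, (hw' ε hε i hi).2.1⟩⟩) hκ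
    obtain ⟨c, hc0, hc⟩ := hSp N m φ₀ (by omega) hφ₀ v hv0
    have h2 := gns σ R wv hJ hG hm (by omega) hκ hR hσ
      (fun ε hε i hi => ⟨(hw ε hε i hi).1, (hw ε hε i hi).2.1⟩) χ c
    have hz : normSq (0 : (Site (N + 1) → Fin 2) → ℂ) = 0 := by simp [normSq]
    rw [hc χ hv, hz, Real.sqrt_zero, mul_zero, zero_add] at h2
    have hN : 0 < ∑ s, ‖c s‖ := by
      rcases (sum_nonneg fun s (_ : s ∈ univ) => norm_nonneg (c s)).lt_or_eq with h | h
      · exact h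
      · exfalso
        apply hc0
        have h5 := (sum_eq_zero_iff_of_nonneg fun s _ => norm_nonneg (c s)).1 h.symm
        funext s
        exact norm_eq_zero.1 (h5 s (mem_univ _))
    have h3 := le_of_mul_le_mul_left h2 hN
    set K := m * (2 * m) with hK
    set g := 1 + 2 * (2 * kap m lam) with hg
    have hg1 : 1 ≤ g := by rw [hg]; linarith
    have h4 : Real.sqrt (normSq χ) ≤ g ^ K * ∑ k : Fin K, Real.sqrt (normSq (bo σ R wv m k *ᵥ χ)) := by
      refine h3.trans ?_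
      rw [mul_sum]
      refine sum_le_sum fun k _ => ?_
      refine mul_le_mul_of_nonneg_right ?_ (Real.sqrt_nonneg _)
      exact pow_le_pow_right₀ hg1 k.2.le
    have h5 : normSq χ ≤ (g ^ K) ^ 2 * (K * ∑ k : Fin K, normSq (bo σ R wv m k *ᵥ χ)) := by
      have h6 := pow_le_pow_left₀ (Real.sqrt_nonneg _) h4 2
      rw [Real.sq_sqrt (normSq_nonneg _), mul_pow] at h6
      refine h6.trans (mul_le_mul_of_nonneg_left ?_ (by positivity))
      have h7 := sq_sum_le_card_mul_sum_sq (s := (univ : Finset (Fin K)))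
        (f := fun k => Real.sqrt (normSq (bo σ R wv m k *ᵥ χ)))
      rw [card_univ, Fintype.card_fin] at h7
      refine h7.trans (le_of_eq ?_)
      congr 1
      exact sum_congr rfl fun k _ => Real.sq_sqrt (normSq_nonneg _)
    have h6 : ∑ k : Fin K, normSq (bo σ R wv m k *ᵥ χ) ≤
        ∑ y : Fin m, ∑ x : Fin (N + 1), (∑ j : Fin (2 * m), (∑ x', |wv 1 j x'|) * |wv 1 j x| +
          ∑ j : Fin (2 * m), (∑ x', |wv (-1) j x'|) * |wv (-1) j x|) *
          nn R σ χ ((x : ZMod (N + 1)), ((y : ℕ) : ZMod (N + 1))) := by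
      refine (sum_le_sum fun k _ => bo_norm σ R wv χ k).trans ?_
      rw [sum_gen (m := m) (fun a b => (∑ x, |wv (σ ((a : ℕ) : ZMod (N + 1))) b x|) *
        ∑ x, |wv (σ ((a : ℕ) : ZMod (N + 1))) b x| *
          nn R σ χ ((x : ZMod (N + 1)), ((a : ℕ) : ZMod (N + 1))))]
      refine sum_le_sum fun y _ => ?_
      have h7 : ∑ j : Fin (2 * m), (∑ x, |wv (σ ((y : ℕ) : ZMod (N + 1))) j x|) *
          ∑ x, |wv (σ ((y : ℕ) : ZMod (N + 1))) j x| *
            nn R σ χ ((x : ZMod (N + 1)), ((y : ℕ) : ZMod (N + 1))) =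
          ∑ x : Fin (N + 1), (∑ j : Fin (2 * m), (∑ x', |wv (σ ((y : ℕ) : ZMod (N + 1))) j x'|) *
            |wv (σ ((y : ℕ) : ZMod (N + 1))) j x|) *
            nn R σ χ ((x : ZMod (N + 1)), ((y : ℕ) : ZMod (N + 1))) := by
        simp only [mul_sum, sum_mul]
        rw [sum_comm]
        refine sum_congr rfl fun x _ => sum_congr rfl fun j _ => ?_
        refine sum_congr rfl fun x' _ => ?_
        ring
      rw [h7]
      refine sum_le_sum fun x _ => ?_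
      have h8 : 0 ≤ nn R σ χ ((x : ZMod (N + 1)), ((y : ℕ) : ZMod (N + 1))) := normSq_nonneg _
      refine mul_le_mul_of_nonneg_right ?_ h8
      rcases hσ ((y : ℕ) : ZMod (N + 1)) with h | h
      · rw [h]
        exact le_add_of_nonneg_right (by positivity)
      · rw [h]
        exact le_add_of_nonneg_left (by positivity)
    have hK2 : (K : ℝ) = 2 * (m : ℝ) ^ 2 := by
      rw [hK]; push_cast; ring
    have hg2 : (g ^ K) ^ 2 = (1 + 4 * kap m lam) ^ (4 * m ^ 2) := by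
      rw [hg, ← pow_mul, hK, show 1 + 2 * (2 * kap m lam) = 1 + 4 * kap m lam by ring]
      congr 1
      ring
    calc normSq χ ≤ (g ^ K) ^ 2 * (K * ∑ k : Fin K, normSq (bo σ R wv m k *ᵥ χ)) := h5
      _ ≤ (g ^ K) ^ 2 * (K * ∑ y : Fin m, ∑ x : Fin (N + 1),
          (∑ j : Fin (2 * m), (∑ x', |wv 1 j x'|) * |wv 1 j x| +
          ∑ j : Fin (2 * m), (∑ x', |wv (-1) j x'|) * |wv (-1) j x|) *
          nn R σ χ ((x : ZMod (N + 1)), ((y : ℕ) : ZMod (N + 1)))) := by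
          refine mul_le_mul_of_nonneg_left (mul_le_mul_of_nonneg_left h6 (by positivity)) (by positivity)
      _ = _ := by
          rw [hg2, hK2]
          ring

end Pool.Agent.Q234.PE.LC
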