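import Pool.Agent.Q234.PL.All
import Pool.Agent.Q234.PE.LC
import Pool.Agent.Q234.PE.FE
import Pool.Agent.Q234.PE.CR
import Pool.Agent.Q234.PE.FR
import Pool.Agent.Q285.PE.DW
import Pool.Agent.Q285.PE.GN
import Pool.Agent.Q65.PE.SP
import Pool.Agent.Q214.PE.KP
import Pool.Agent.Q214.PE.CX
import Pool.Agent.Q214.PE.LH
import Pool.Agent.Q149.PE.TI
import Pool.Agent.Q162.PE.PT
import Pool.Agent.Q162.PE.SG
import Pool.Agent.Q130.PE.EI
import Pool.Agent.Q130.PE.RE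
import Pool.Agent.Q237.PE.SS
import Pool.Agent.Q237.PE.NU
import Pool.Agent.Q237.PE.ET
import Pool.Agent.Q262.PE.TC
import Pool.Agent.Q262.PE.SE

/-!
# Project PE: everything unconditional
-/

set_option autoImplicit false

open scoped BigOperators Matrix
open Finset Pool.Agent.TH235.PP Pool.Agent.Q234.PL

namespace Pool.Agent.Q234.PE.All

theorem ringE : RingE := Pool.Agent.Q130.PE.RE.main Pool.Agent.Q130.PE.EI.main

theorem starG : StarG := Pool.Agent.Q162.PE.SG.main Pool.Agent.Q299.PL.HA.main Pool.Agent.Q208.PL.Al.main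

theorem dualW : DualW := Pool.Agent.Q285.PE.DW.main starG

theorem localC : LocalC :=
  LC.main Pool.Agent.Q68.PL.JWjob.main Pool.Agent.Q234.PL.All.torusHam Pool.Agent.Q285.PE.GN.main
    ringE dualW Pool.Agent.Q65.PE.SP.main

theorem torCov : TorCov := Pool.Agent.Q262.PE.TC.main Pool.Agent.Q214.PE.CX.main

theorem secE : SecE := Pool.Agent.Q262.PE.SE.main

theorem finalE : FinalE :=
  FE.main localC torCov secE Pool.Agent.Q237.PE.SS.main Pool.Agent.Q214.PE.KP.main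
    Pool.Agent.Q162.PE.PT.main Pool.Agent.Q237.PE.NU.main ringE

theorem core (lam : ℝ) (h0 : 0 < lam) (h1 : lam < 1) :
    ∃ (C : ℝ) (Ψ : ∀ L : ℕ, (Site L → Fin 2) → ℂ) (E : ℕ → ℝ), 1 ≤ C ∧ CR.Core lam C Ψ E :=
  CR.main finalE lam h0 h1

theorem fixed {lam C : ℝ} (h0 : 0 < lam) (h1 : lam < 1) (hC : 1 ≤ C)
    {Ψ : ∀ L : ℕ, (Site L → Fin 2) → ℂ} {E : ℕ → ℝ} (hK : CR.Core lam C Ψ E)
    {R : Finset (ℤ × ℤ)} (hR : pair ⊆ R) {ε : ℝ} (hε0 : 0 < ε) (hε : ε ≤ Real.exp (-(16 * C)))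
    {D : ℕ} (A : Pool.Agent.H4R2.Tensor 2 D)
    (hA : ∃ L₀ : ℕ, ∀ (L : ℕ) [NeZero L], L₀ ≤ L → Pool.Agent.H4R2.contract A L ≠ 0)
    (hlim : ∃ L₀ : ℕ, ∀ (L : ℕ) [NeZero L], L₀ ≤ L →
      Pool.Agent.H4R2.traceNorm (Pool.Agent.H4R2.redState R (Ψ L) -
        Pool.Agent.H4R2.redState R (Pool.Agent.H4R2.contract A L)) ≤ 2 * ε) :
    (1 / (4 * C)) * Real.log (1 / ε) ^ (1 / 3 : ℝ) ≤ Real.log D :=
  FR.main Pool.Agent.Q237.PE.ET.main Pool.Agent.Q214.PE.LH.main Pool.Agent.Q149.PE.TI.main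
    Pool.Agent.Q234.PL.All.hamEq Pool.Agent.Q241.PL.TD.main h0 h1 hC hK hR hε0 hε A hA hlim

end Pool.Agent.Q234.PE.All
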