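import Pool.Agent.Q234.PL.Stm2

/-!
# Project PE: the energy of PEPS vectors, definitions

The energy per site of every PEPS vector of bond dimension `D` on the torus (the Hamiltonian of project
PL, transverse field Ising rings in the rows) is at least the ground energy per site plus
`exp (-C (1 + log D)^3)`.
-/

set_option autoImplicit false

open scoped BigOperators Matrix
open Finset Pool.Agent.TH235.PP Pool.Agent.Q234.PL

namespace Pool.Agent.Q234.PE

/-- the unit vector at `k` -/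
def ev {N : ℕ} (k : Fin (N + 1)) : Fin (N + 1) → ℝ := Pi.single k 1

/-- `f` lives on the configurations of parity `-ε` (even ones for `ε = -1`, odd ones for `ε = 1`) -/
def InPar {N : ℕ} (ε : ℝ) (f : Cf N → ℂ) : Prop :=
  ∀ s, f s ≠ 0 → ∏ j, sgn (s j) = ((-ε : ℝ) : ℂ)

/-- the square roots for both signs -/
def Roots (lam : ℝ) (N : ℕ) (R : ℝ → Matrix (Fin (N + 1)) (Fin (N + 1)) ℝ) : Prop :=
  ∀ ε : ℝ, ε = 1 ∨ ε = -1 → RootOf N ε lam (R ε)

/-- the configuration `q` on the sites `e j`, `s` elsewhere -/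
noncomputable def put {P ι : Type} (e : P → ι) (q : P → Fin 2) (s : ι → Fin 2) : ι → Fin 2 :=
  Function.extend e q s

open Classical in
/-- the operator `W` on the sites `e j`, the identity elsewhere -/
noncomputable def loc {P ι : Type} (e : P → ι) (W : Matrix (P → Fin 2) (P → Fin 2) ℂ) :
    Matrix (ι → Fin 2) (ι → Fin 2) ℂ := fun s t =>
  if ∀ i, (∀ j, e j ≠ i) → s i = t i then W (fun j => s (e j)) (fun j => t (e j)) else 0

/-- the sites of the row `y` of the torus -/
def row {N : ℕ} (y : ZMod (N + 1)) : Fin (N + 1) → Site (N + 1) := fun x => ((x : ZMod (N + 1)), y)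

/-- the sites of the block `[0, m)²` -/
def blk (N m : ℕ) : Fin m × Fin m → Site (N + 1) := fun x =>
  (((x.1 : ℕ) : ZMod (N + 1)), ((x.2 : ℕ) : ZMod (N + 1)))

/-- `χ` lives on the configurations whose row `y` has the parity `-σ y` -/
def InSec {N : ℕ} (σ : ZMod (N + 1) → ℝ) (χ : (Site (N + 1) → Fin 2) → ℂ) : Prop :=
  ∀ s, χ s ≠ 0 → ∀ y, ∏ x : Fin (N + 1), sgn (s (row y x)) = ((-(σ y) : ℝ) : ℂ)

open Classical in
/-- the part of `φ` in the sector `σ` -/
noncomputable def sec {N : ℕ} (σ : ZMod (N + 1) → ℝ) (φ : (Site (N + 1) → Fin 2) → ℂ) :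
    (Site (N + 1) → Fin 2) → ℂ := fun s =>
  if ∀ y, ∏ x : Fin (N + 1), sgn (s (row y x)) = ((-(σ y) : ℝ) : ℂ) then φ s else 0

/-- the translate -/
def tr {N : ℕ} (u : Site (N + 1)) (χ : (Site (N + 1) → Fin 2) → ℂ) : (Site (N + 1) → Fin 2) → ℂ :=
  fun s => χ fun v => s (v + u)

/-- the squared norm of the mode at `v` applied to `χ` -/
noncomputable def nn {N : ℕ} (R : ℝ → Matrix (Fin (N + 1)) (Fin (N + 1)) ℝ) (σ : ZMod (N + 1) → ℝ)
    (χ : (Site (N + 1) → Fin 2) → ℂ) (v : Site (N + 1)) : ℝ :=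
  normSq (loc (row v.2) (annih (R (σ v.2)) (ev v.1)) *ᵥ χ)

/-- the Majorana operators of the block `[0, m)` of the ring: `A_0, B_0, A_1, B_1, ...` -/
noncomputable def gm {N : ℕ} (j : ℕ) : Matrix (Cf N) (Cf N) ℂ :=
  if j % 2 = 0 then Ao (Fin.ofNat (N + 1) (j / 2)) else Bo (Fin.ofNat (N + 1) (j / 2))

/-- the Majorana operators of the block `[0, m)²` of the torus, row by row -/
noncomputable def bm (N m : ℕ) (k : Fin (m * (2 * m))) :
    Matrix (Site (N + 1) → Fin 2) (Site (N + 1) → Fin 2) ℂ :=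
  loc (row (((k : ℕ) / (2 * m) : ℕ) : ZMod (N + 1))) (gm ((k : ℕ) % (2 * m)))

end Pool.Agent.Q234.PE
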