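import Pool.Agent.Q234.PE.Defs
import Pool.Agent.Q234.PL.Rg

/-!
# Project PE: operators on a part of the sites
-/

set_option autoImplicit false
set_option linter.unusedSectionVars false

open scoped BigOperators Matrix
open Finset Pool.Agent.TH235.PP Pool.Agent.Q234.PL

namespace Pool.Agent.Q234.PE

section

variable {P ι : Type}

theorem mv {n n' : Type} [Fintype n'] (A : Matrix n n' ℂ) (φ : n' → ℂ) (s : n) :
    (A *ᵥ φ) s = ∑ t, A s t * φ t := rfl

theorem put_apply {e : P → ι} (he : Function.Injective e) (q : P → Fin 2) (s : ι → Fin 2) (j : P) :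
    put e q s (e j) = q j := he.extend_apply q s j

theorem put_off {e : P → ι} (q : P → Fin 2) (s : ι → Fin 2) (i : ι) (h : ∀ j, e j ≠ i) :
    put e q s i = s i := Function.extend_apply' q s i fun ⟨j, hj⟩ => h j hj

theorem put_ext {e : P → ι} {a b : ι → Fin 2} (h1 : ∀ j, a (e j) = b (e j))
    (h2 : ∀ i, (∀ j, e j ≠ i) → a i = b i) : a = b := by
  funext i
  by_cases h : ∃ j, e j = i
  · obtain ⟨j, rfl⟩ := h
    exact h1 j
  · exact h2 i fun j hj => h ⟨j, hj⟩

theorem put_self {e : P → ι} (he : Function.Injective e) (s : ι → Fin 2) :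
    put e (fun j => s (e j)) s = s :=
  put_ext (fun j => put_apply he _ _ j) fun i h => put_off _ _ i h

theorem put_put {e : P → ι} (he : Function.Injective e) (p q : P → Fin 2) (s : ι → Fin 2) :
    put e p (put e q s) = put e p s :=
  put_ext (fun j => by rw [put_apply he, put_apply he]) fun i h => by
    rw [put_off _ _ i h, put_off _ _ i h, put_off _ _ i h]

/-- the entries of `loc` -/
theorem loc_put {e : P → ι} (he : Function.Injective e) (W : Matrix (P → Fin 2) (P → Fin 2) ℂ)
    (s : ι → Fin 2) (q : P → Fin 2) : loc e W s (put e q s) = W (fun j => s (e j)) q := by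
  unfold loc
  rw [if_pos fun i h => (put_off q s i h).symm]
  congr 1
  funext j
  exact put_apply he q s j

theorem loc_ne {e : P → ι} (W : Matrix (P → Fin 2) (P → Fin 2) ℂ)
    (s t : ι → Fin 2) (h : ¬ ∀ i, (∀ j, e j ≠ i) → s i = t i) : loc e W s t = 0 := by
  unfold loc
  rw [if_neg h]

variable [Fintype P] [DecidableEq P] [Fintype ι] [DecidableEq ι]

/-- the sum over the configurations which agree with `s` off the sites -/
theorem sum_put {M : Type*} [AddCommMonoid M] {e : P → ι} (he : Function.Injective e)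
    (s : ι → Fin 2) (F : (ι → Fin 2) → M)
    (hF : ∀ t, (¬ ∀ i, (∀ j, e j ≠ i) → s i = t i) → F t = 0) :
    ∑ t, F t = ∑ q : P → Fin 2, F (put e q s) := by
  classical
  rw [← Finset.sum_filter_add_sum_filter_not univ (fun t => ∀ i, (∀ j, e j ≠ i) → s i = t i),
    Finset.sum_eq_zero (s := univ.filter fun t => ¬ ∀ i, (∀ j, e j ≠ i) → s i = t i)
      (fun t ht => hF t (mem_filter.1 ht).2), add_zero]
  refine sum_nbij' (fun t => fun j => t (e j)) (fun q => put e q s) ?_ ?_ ?_ ?_ ?_
  · intro t _
    exact mem_univ _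
  · intro q _
    rw [mem_filter]
    exact ⟨mem_univ _, fun i h => (put_off q s i h).symm⟩
  · intro t ht
    have h := (mem_filter.1 ht).2
    exact put_ext (fun j => put_apply he _ _ j) fun i hi => by rw [put_off _ _ i hi, h i hi]
  · intro q _
    funext j
    exact put_apply he q s j
  · intro t ht
    have h := (mem_filter.1 ht).2
    have : put e (fun j => t (e j)) s = t :=
      put_ext (fun j => put_apply he _ _ j) fun i hi => by rw [put_off _ _ i hi, h i hi]
    rw [this]

/-- the action of a local operator -/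
theorem loc_mulVec {e : P → ι} (he : Function.Injective e) (W : Matrix (P → Fin 2) (P → Fin 2) ℂ)
    (φ : (ι → Fin 2) → ℂ) (s : ι → Fin 2) :
    (loc e W *ᵥ φ) s = (W *ᵥ fun q => φ (put e q s)) fun j => s (e j) := by
  rw [mv, mv, sum_put he s _ fun t ht => by rw [loc_ne W s t ht, zero_mul]]
  refine sum_congr rfl fun q _ => ?_
  rw [loc_put he]

/-- the slices of the image -/
theorem loc_mulVec_put {e : P → ι} (he : Function.Injective e)
    (W : Matrix (P → Fin 2) (P → Fin 2) ℂ) (φ : (ι → Fin 2) → ℂ) (s : ι → Fin 2) :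
    (fun q => (loc e W *ᵥ φ) (put e q s)) = W *ᵥ fun q => φ (put e q s) := by
  funext q
  rw [loc_mulVec he]
  have h1 : (fun j => put e q s (e j)) = q := funext fun j => put_apply he q s j
  have h2 : (fun p => φ (put e p (put e q s))) = fun p => φ (put e p s) :=
    funext fun p => by rw [put_put he]
  rw [h1, h2]

open Classical in
/-- averaging over the sites -/
theorem sum_slices {M : Type*} [AddCommMonoid M] {e : P → ι} (he : Function.Injective e)
    (F : (ι → Fin 2) → M) :
    ∑ s, ∑ q : P → Fin 2, F (put e q s) = (Fintype.card (P → Fin 2)) • ∑ s, F s := by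
  have h1 : ∀ s, ∑ q : P → Fin 2, F (put e q s) =
      ∑ t, if (∀ i, (∀ j, e j ≠ i) → s i = t i) then F t else 0 := by
    intro s
    rw [sum_put he s _ fun t ht => by rw [if_neg ht]]
    refine sum_congr rfl fun q _ => ?_
    rw [if_pos fun i h => (put_off q s i h).symm]
  simp only [h1]
  rw [sum_comm]
  have h2 : ∀ t, (∑ s : ι → Fin 2, if (∀ i, (∀ j, e j ≠ i) → s i = t i) then F t else 0) =
      (Fintype.card (P → Fin 2)) • F t := by
    intro t
    rw [sum_put he t _ fun s hs => by rw [if_neg fun h => hs fun i hi => (h i hi).symm]]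
    have h3 : ∀ q : P → Fin 2, (if (∀ i, (∀ j, e j ≠ i) → put e q t i = t i) then F t else 0) = F t :=
      fun q => if_pos fun i h => put_off q t i h
    simp only [h3]
    rw [sum_const, card_univ]
  simp only [h2]
  rw [smul_sum]

theorem normSq_slices {e : P → ι} (he : Function.Injective e) (φ : (ι → Fin 2) → ℂ) :
    ∑ s, normSq (fun q => φ (put e q s)) = Fintype.card (P → Fin 2) * normSq φ := by
  unfold normSq
  rw [sum_slices he fun s => ‖φ s‖ ^ 2, nsmul_eq_mul]

theorem ip_slices {e : P → ι} (he : Function.Injective e) (φ ψ : (ι → Fin 2) → ℂ) :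
    ∑ s, ip (fun q => φ (put e q s)) (fun q => ψ (put e q s)) =
      Fintype.card (P → Fin 2) * ip φ ψ := by
  unfold ip
  rw [sum_slices he fun s => (starRingEnd ℂ) (φ s) * ψ s, nsmul_eq_mul]

theorem normSq_loc {e : P → ι} (he : Function.Injective e) (W : Matrix (P → Fin 2) (P → Fin 2) ℂ)
    (φ : (ι → Fin 2) → ℂ) :
    Fintype.card (P → Fin 2) * normSq (loc e W *ᵥ φ) =
      ∑ s, normSq (W *ᵥ fun q => φ (put e q s)) := by
  rw [← normSq_slices he]
  exact sum_congr rfl fun s _ => by rw [loc_mulVec_put he]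

theorem ip_loc {e : P → ι} (he : Function.Injective e) (W : Matrix (P → Fin 2) (P → Fin 2) ℂ)
    (φ : (ι → Fin 2) → ℂ) :
    Fintype.card (P → Fin 2) * ip φ (loc e W *ᵥ φ) =
      ∑ s, ip (fun q => φ (put e q s)) (W *ᵥ fun q => φ (put e q s)) := by
  rw [← ip_slices he]
  exact sum_congr rfl fun s _ => by rw [loc_mulVec_put he]

theorem card_pos' : (0 : ℝ) < Fintype.card (P → Fin 2) := by
  exact_mod_cast Fintype.card_pos

/-- norm bounds carry over -/
theorem normSq_loc_le {e : P → ι} (he : Function.Injective e)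
    (W : Matrix (P → Fin 2) (P → Fin 2) ℂ) (c : ℝ) (hW : ∀ f, normSq (W *ᵥ f) ≤ c * normSq f)
    (φ : (ι → Fin 2) → ℂ) : normSq (loc e W *ᵥ φ) ≤ c * normSq φ := by
  have h1 := normSq_loc he W φ
  have h2 : ∑ s, normSq (W *ᵥ fun q => φ (put e q s)) ≤ ∑ s, c * normSq (fun q => φ (put e q s)) :=
    sum_le_sum fun s _ => hW _
  rw [← mul_sum, normSq_slices he, ← h1] at h2
  have h3 : (0 : ℝ) < Fintype.card (P → Fin 2) := card_pos'
  have h4 : (Fintype.card (P → Fin 2) : ℝ) * normSq (loc e W *ᵥ φ) ≤
      Fintype.card (P → Fin 2) * (c * normSq φ) := by linarith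
  exact le_of_mul_le_mul_left h4 h3

/-- matrices are determined by their action -/
theorem ext_mulVec {n : Type} [Fintype n] [DecidableEq n] {A B : Matrix n n ℂ}
    (h : ∀ φ, A *ᵥ φ = B *ᵥ φ) : A = B := by
  have h2 : Matrix.toLin' A = Matrix.toLin' B := LinearMap.ext fun φ => by
    rw [Matrix.toLin'_apply, Matrix.toLin'_apply, h]
  exact Matrix.toLin'.injective h2

theorem loc_mul {e : P → ι} (he : Function.Injective e) (W W' : Matrix (P → Fin 2) (P → Fin 2) ℂ) :
    loc e (W * W') = loc e W * loc e W' := by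
  refine ext_mulVec fun φ => ?_
  funext s
  rw [← Matrix.mulVec_mulVec, loc_mulVec he, loc_mulVec he, loc_mulVec_put he, Matrix.mulVec_mulVec]

theorem loc_add (e : P → ι) (W W' : Matrix (P → Fin 2) (P → Fin 2) ℂ) :
    loc e (W + W') = loc e W + loc e W' := by
  ext s t
  rw [Matrix.add_apply]
  unfold loc
  split_ifs
  · rfl
  · simp

theorem loc_smul (e : P → ι) (c : ℂ) (W : Matrix (P → Fin 2) (P → Fin 2) ℂ) :
    loc e (c • W) = c • loc e W := by
  ext s t
  rw [Matrix.smul_apply]
  unfold loc
  split_ifs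
  · rfl
  · simp

theorem loc_zero (e : P → ι) : loc e (0 : Matrix (P → Fin 2) (P → Fin 2) ℂ) = 0 := by
  ext s t
  unfold loc
  split_ifs <;> rfl

theorem loc_neg (e : P → ι) (W : Matrix (P → Fin 2) (P → Fin 2) ℂ) : loc e (-W) = -loc e W := by
  have h := loc_smul e (-1) W
  rwa [neg_one_smul, neg_one_smul] at h

theorem loc_sum {κ : Type*} (e : P → ι) (S : Finset κ) (W : κ → Matrix (P → Fin 2) (P → Fin 2) ℂ) :
    loc e (∑ k ∈ S, W k) = ∑ k ∈ S, loc e (W k) := by
  classical
  induction S using Finset.induction_on with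
  | empty => rw [sum_empty, sum_empty, loc_zero]
  | insert a S ha ih => rw [sum_insert ha, sum_insert ha, loc_add, ih]

theorem loc_one {e : P → ι} (he : Function.Injective e) :
    loc e (1 : Matrix (P → Fin 2) (P → Fin 2) ℂ) = 1 := by
  refine ext_mulVec fun φ => ?_
  funext s
  rw [loc_mulVec he, Matrix.one_mulVec, Matrix.one_mulVec, put_self he]

theorem loc_herm {e : P → ι} (W : Matrix (P → Fin 2) (P → Fin 2) ℂ) :
    (loc e W)ᴴ = loc e Wᴴ := by
  ext s t
  rw [Matrix.conjTranspose_apply]
  unfold loc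
  by_cases h : ∀ i, (∀ j, e j ≠ i) → s i = t i
  · rw [if_pos h, if_pos fun i hi => (h i hi).symm, Matrix.conjTranspose_apply]
  · rw [if_neg h, if_neg fun h' => h fun i hi => (h' i hi).symm, star_zero]

theorem loc_isHermitian {e : P → ι} {W : Matrix (P → Fin 2) (P → Fin 2) ℂ} (hW : W.IsHermitian) :
    (loc e W).IsHermitian := by
  unfold Matrix.IsHermitian
  rw [loc_herm, hW.eq]

/-- operators on disjoint sets of sites commute -/
theorem loc_comm {P' : Type} [Fintype P'] [DecidableEq P'] {e : P → ι} {e' : P' → ι}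
    (he : Function.Injective e) (he' : Function.Injective e') (hd : ∀ j j', e j ≠ e' j')
    (W : Matrix (P → Fin 2) (P → Fin 2) ℂ) (W' : Matrix (P' → Fin 2) (P' → Fin 2) ℂ) :
    loc e W * loc e' W' = loc e' W' * loc e W := by
  refine ext_mulVec fun φ => ?_
  funext s
  rw [← Matrix.mulVec_mulVec, ← Matrix.mulVec_mulVec, loc_mulVec he, loc_mulVec he', mv, mv]
  have h1 : ∀ q : P → Fin 2, (loc e' W' *ᵥ φ) (put e q s) =
      ∑ q' : P' → Fin 2, W' (fun j => s (e' j)) q' * φ (put e' q' (put e q s)) := by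
    intro q
    have h0 : (fun j => put e q s (e' j)) = fun j => s (e' j) :=
      funext fun j => put_off q s _ fun i => hd i j
    rw [loc_mulVec he', mv, h0]
  have h2 : ∀ q' : P' → Fin 2, (loc e W *ᵥ φ) (put e' q' s) =
      ∑ q : P → Fin 2, W (fun j => s (e j)) q * φ (put e q (put e' q' s)) := by
    intro q'
    have h0 : (fun j => put e' q' s (e j)) = fun j => s (e j) :=
      funext fun j => put_off q' s _ fun i => (hd j i).symm
    rw [loc_mulVec he, mv, h0]
  simp only [h1, h2]
  simp only [mul_sum]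
  rw [sum_comm]
  refine sum_congr rfl fun q' _ => sum_congr rfl fun q _ => ?_
  have h3 : put e' q' (put e q s) = put e q (put e' q' s) := by
    funext i
    by_cases hi : ∃ j, e j = i
    · obtain ⟨j, rfl⟩ := hi
      rw [put_off _ _ _ (fun j' => (hd j j').symm), put_apply he, put_apply he]
    · have hi' : ∀ j, e j ≠ i := fun j hj => hi ⟨j, hj⟩
      rw [put_off q _ i hi']
      by_cases hk : ∃ j, e' j = i
      · obtain ⟨j, rfl⟩ := hk
        rw [put_apply he', put_apply he']
      · have hk' : ∀ j, e' j ≠ i := fun j hj => hk ⟨j, hj⟩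
        rw [put_off q' _ i hk', put_off q' _ i hk', put_off q _ i hi']
  rw [h3]
  ring

/-- composition -/
theorem loc_loc {Q : Type} [Fintype Q] [DecidableEq Q] {e : P → ι} {e₁ : Q → P}
    (he : Function.Injective e) (W : Matrix (Q → Fin 2) (Q → Fin 2) ℂ) :
    loc e (loc e₁ W) = loc (fun j => e (e₁ j)) W := by
  ext s t
  unfold loc
  by_cases h : ∀ i, (∀ j, e (e₁ j) ≠ i) → s i = t i
  · rw [if_pos h, if_pos fun i hi => h i fun j => hi (e₁ j),
      if_pos fun i hi => h (e i) fun j hj => hi j (he hj)]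
  · rw [if_neg h]
    by_cases h' : ∀ i, (∀ j, e j ≠ i) → s i = t i
    · rw [if_pos h', if_neg]
      intro h''
      apply h
      intro i hi
      by_cases hk : ∃ j, e j = i
      · obtain ⟨j, rfl⟩ := hk
        exact h'' j fun k hk => hi k (by rw [hk])
      · exact h' i fun j hj => hk ⟨j, hj⟩
    · rw [if_neg h']

end

section rows

variable {N : ℕ}

theorem row_inj (y : ZMod (N + 1)) : Function.Injective (row (N := N) y) := by
  intro a b h
  exact congrArg Prod.fst h

theorem row_disj {y z : ZMod (N + 1)} (h : y ≠ z) (i j : Fin (N + 1)) : row y i ≠ row z j := by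
  intro h'
  exact h (congrArg Prod.snd h')

end rows

end Pool.Agent.Q234.PE
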