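import Pool.Agent.Q234.PE.Loc

/-!
# Project PE: statements

Every PEPS vector of bond dimension `D` on the `L × L` torus has energy at least
`E₀ + L² exp (-C (1 + log D)³)`. The statements of the jobs with complete proofs in the docstrings.
The lemmas on `loc`, `put` are in `PE/Loc.lean`; the lemmas on `annih` are in `PL/Rw.lean` (`annih_A`,
`annih_B`, `sq_sum`, `herm_sum`, `norm_sum`), the ones on `ip`, `normSq` in `PL/Rg.lean`; `Ao`, `Bo`, `flip` are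
computed in `Q68/PL/JW.lean`. Everything of `PL/Stm.lean` is proven (`PL/AllA.lean`, `PL/All.lean`).
-/

set_option autoImplicit false

open scoped BigOperators Matrix
open Finset Pool.Agent.TH235.PP Pool.Agent.Q234.PL

namespace Pool.Agent.Q234.PE

/-- EnergyId. The quadratic form is a sum of squares of the modes. PROOF. `a_k = annih R (ev k) =
∑_j R_jk A_j + i ∑_j R_kj B_j =: A(c_k) + i B(r_k)` (`c_k` the column, `r_k` the row of `R`). By JW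
`A(c)`, `B(r)` are Hermitian, `A(c)² = c·c`, `B(r)² = r·r`, `A(c) B(r) = - B(r) A(c)`. So
`a_kᴴ a_k = (A(c_k) - i B(r_k)) (A(c_k) + i B(r_k)) = c_k·c_k + r_k·r_k + 2 i A(c_k) B(r_k)`. Sum over `k`:
`∑ c_k·c_k = ∑ r_k·r_k = tr (R Rᵀ)` and `∑_k i A(c_k) B(r_k) = i ∑_jl (∑_k R_jk R_kl) A_j B_l = qf (R R) =
qf (1 - lam S)`. -/
def EnergyId : Prop := ∀ (N : ℕ) (ε lam : ℝ) (R : Matrix (Fin (N + 1)) (Fin (N + 1)) ℝ),
  RootOf N ε lam R →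
    qf (1 - lam • shiftM N ε) + (((R * Rᵀ).trace : ℝ) : ℂ) • (1 : Matrix (Cf N) (Cf N) ℂ) =
      (1 / 2 : ℂ) • ∑ k, (annih R (ev k))ᴴ * annih R (ev k)

/-- RingE. PROOF from EnergyId, JW, RingId, ExVac, Parity, Compare (all proven, see `PL/AllA.lean`; copy the
beginning of `Rg.main`). Take `(R₋, E, Ψ)` from ExVac for `ε = -1` and `(R₊, E', Ψ')` for `ε = 1`;
`R ε = if ε = -1 then R₋ else R₊`. `Po Ψ = Ψ`, `Po Ψ' = Ψ'` (Parity), `E ≤ E'` (Compare), `Rg.main` shows the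
IsGround part with this `R₋`, `E`, `Ψ` (or redo it). `Po Ψ = Ψ` gives `InPar (-1) Ψ`. By EnergyId and
`annih R w Ψ = 0`: `qf(..) Ψ = - tr (R₋ R₋ᵀ) Ψ`, so `E = - tr (R₋ R₋ᵀ)`, `E' = - tr (R₊ R₊ᵀ)`. If `InPar ε f`
then `Po f = -ε f`, so RingId gives `ringH f = qf (1 - lam S_ε) f` and by EnergyId
`ip f (ringH f) = - tr (R_ε R_εᵀ) normSq f + (1/2) ∑_k normSq (annih (R ε) (ev k) f)`, where
`- tr (R_ε R_εᵀ) ≥ E`. -/
def RingE : Prop := ∀ (N : ℕ) (lam : ℝ), 1 ≤ N → 0 ≤ lam → lam < 1 →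
  ∃ (R : ℝ → Matrix (Fin (N + 1)) (Fin (N + 1)) ℝ) (E : ℝ) (Ψ : Cf N → ℂ), Roots lam N R ∧
    IsGround (ringH lam N) E (2 * (1 - lam)) Ψ ∧ (∀ w, annih (R (-1)) w *ᵥ Ψ = 0) ∧
    ∀ ε : ℝ, ε = 1 ∨ ε = -1 → ∀ f : Cf N → ℂ, InPar ε f →
      E * normSq f + (1 / 2) * ∑ k, normSq (annih (R ε) (ev k) *ᵥ f) ≤ (ip f (ringH lam N *ᵥ f)).re

/-- CovX. PROOF. Let `T g = fun s => g (fun i => s (i + 1))`, `S = shiftM N ε`. Claim: for `InPar ε g` and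
all real `w`: `T (annih R w g) = Zo 0 *ᵥ (annih R (S w) (T g))`. As `Zo 0` and `T` preserve `normSq` and
`S (ev k) = ev (k + 1)` or `ε ev (k + 1)`, the lemma follows. (1) For `j < N`: `(T (A_j g)) s =
∏_{i<j} sgn (s (i+1)) g (flip_j (s ∘ (+1)))`, `flip_j (s ∘ (+1)) = (flip_(j+1) s) ∘ (+1)`, and
`∏_{i<j} sgn (s (i+1)) = sgn (s 0) ∏_{i<j+1} sgn (s i)`, so `T (A_j g) = Z_0 A_(j+1) (T g)`; in the same way
`T (B_j g) = Z_0 B_(j+1) (T g)` (`(B_j g) s = -i ∏_{i≤j} sgn (s i) g (flip_j s)`). (2) `j = N`: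
`(T (A_N g)) s = ∏_{i≥1} sgn (s i) (T g) (flip_0 s)`; if this is nonzero then the parity of `flip_0 s` is
`-ε` (the parity is invariant under the rotation), so `∏_i sgn (s i) = ε` and
`∏_{i≥1} sgn (s i) = ε sgn (s 0)`: `T (A_N g) = ε Z_0 A_0 (T g)`, and `T (B_N g) = ε Z_0 B_0 (T g)`. (3) So
`T (annih R w g) = Z_0 (∑_j (S R w)_j A_j + i ∑_j (S Rᵀ w)_j B_j) (T g)`, and `S R = R S`, `S Rᵀ = Rᵀ S`: by
RootOf.sq `lam S = 1 - R R` commutes with `R`, and with `Rᵀ` by RootOf.normal; `lam > 0`. -/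
def CovX : Prop := ∀ (N : ℕ) (ε lam : ℝ) (R : Matrix (Fin (N + 1)) (Fin (N + 1)) ℝ),
  ε = 1 ∨ ε = -1 → 0 < lam → RootOf N ε lam R → ∀ f : Cf N → ℂ, InPar ε f → ∀ k : Fin (N + 1),
    normSq (annih R (ev (k + 1)) *ᵥ fun s => f fun i => s (i + 1)) = normSq (annih R (ev k) *ᵥ f)

/-- StarG. PL.Star for both signs. PROOF: copy `Q63/PL/ST.lean` (`main`), which never uses the sign (it uses
`entry`, `lower`, `normal` of RootOf only). -/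
def StarG : Prop := ∀ (N m : ℕ) (ε lam : ℝ) (R : Matrix (Fin (N + 1)) (Fin (N + 1)) ℝ),
  ε = 1 ∨ ε = -1 → 0 < lam → lam < 1 → 1 ≤ m → 2 * m ≤ N + 1 →
  6 * m * lam ^ (N + 1 - 2 * m) ≤ hh m lam * (1 - lam) →
  RootOf N ε lam R → ∀ x y : Fin (N + 1) → ℝ, (∀ i : Fin (N + 1), m ≤ (i : ℕ) → x i = 0 ∧ y i = 0) →
    x ⬝ᵥ x + y ⬝ᵥ y ≤ kap m lam ^ 2 * ((Rᵀ *ᵥ x + R *ᵥ y) ⬝ᵥ (Rᵀ *ᵥ x + R *ᵥ y))

/-- DualW. Solvability with bounds for the norm and the sum of the absolute values. PROOF from StarG (may be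
assumed). As in `Q208/PL/Du.lean`: `T w = ((R w)|_[0,m), (Rᵀ w)|_[0,m))`, `Tᵀ (x, y) = Rᵀ x + R y` for `x, y`
supported on the block, `T Tᵀ` is bijective, `w = Tᵀ ξ`, `T Tᵀ ξ = (p, r)`, `ξ = (x, y)`; the estimate
`w·w ≤ kap² (p·p + r·r)` is there. StarG: `x·x + y·y ≤ kap² w·w ≤ kap⁴ (p·p + r·r)`. By `entry` and
`|ac n| ≤ 1` the rows and the columns of `R` satisfy `∑_i |R i j| ≤ 3 / (1 - lam)`,
`∑_j |R i j| ≤ 3 / (1 - lam)`: the main terms give `∑ lam^n ≤ 1 / (1 - lam)`, the errors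
`lam^(N + 1 - ((j:ℕ) - i))` are `lam^(N+1)` for `j ≤ i` and `lam^(N+1-d)` for `j = i + d`, `1 ≤ d ≤ N`
(different powers). Hence `∑|w_i| ≤ 3/(1-lam) (∑|x_i| + ∑|y_i|)` and
`(∑|x_i| + ∑|y_i|)² ≤ 2 m (x·x + y·y)` (at most `2m` nonzero entries), `9 * 2 = 18`. -/
def DualW : Prop := ∀ (N m : ℕ) (ε lam : ℝ) (R : Matrix (Fin (N + 1)) (Fin (N + 1)) ℝ),
  ε = 1 ∨ ε = -1 → 0 < lam → lam < 1 → 1 ≤ m → 2 * m ≤ N + 1 →
  6 * m * lam ^ (N + 1 - 2 * m) ≤ hh m lam * (1 - lam) →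
  RootOf N ε lam R → ∀ p r : Fin (N + 1) → ℝ, (∀ i : Fin (N + 1), m ≤ (i : ℕ) → p i = 0 ∧ r i = 0) →
    ∃ w : Fin (N + 1) → ℝ,
      (∀ i : Fin (N + 1), (i : ℕ) < m → (R *ᵥ w) i = p i ∧ (Rᵀ *ᵥ w) i = r i) ∧
      w ⬝ᵥ w ≤ kap m lam ^ 2 * (p ⬝ᵥ p + r ⬝ᵥ r) ∧
      (∑ i, |w i|) ^ 2 ≤ 18 * m / (1 - lam) ^ 2 * kap m lam ^ 4 * (p ⬝ᵥ p + r ⬝ᵥ r)

/-- GNSs. The robust form of PL.GNS, with signs. PROOF by induction on `K` (adapt `Q299/PL/GN.lean`). Write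
`‖·‖` for `sqrt (normSq ·)` and `N(c) = ∑ ‖c s‖`. `K = 0`: `N(c) ‖φ‖ = ‖c • φ‖`. Step: split
`c = (c⁰, c¹)` according to the last index `k`, `O(c) = O₁ + O₂ γ_k`; for words in `γ_j, j < k`, put
`sg(s) = ∏_j (sg k j)^(s_j)` and `O' = ∑ c_s sg(s) word_s`; then `b_k word_s = sg(s) word_s b_k` and
`γ_k word_s = sg(s) word_s γ_k`, so `b O₁ = O₁' b`, `b O₂ = O₂' b`, `O₂ γ_k = γ_k O₂'`. Therefore
`b O(c) φ = O₁' b φ + O₂' (2 ζ - γ_k b) φ`, thus `2 O₂' φ = ζ⁻¹ (b O(c) φ - O₁' b φ + O₂' γ_k b φ)` and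
`2 ‖O₂' φ‖ ≤ 2 κ ‖O(c) φ‖ + N(c) ‖b_k φ‖` (words are unitary). Further `‖O₂ γ_k φ‖ = ‖O₂' φ‖` and
`‖O₁ φ‖ ≤ ‖O(c) φ‖ + ‖O₂' φ‖`. Induction for `c⁰` and for `sg(s) c¹_s`: with `G = (1 + 2κ)^K`,
`e = ∑_{j<K} (1+2κ)^j ‖b_j φ‖`: `N(c) ‖φ‖ ≤ G (‖O₁ φ‖ + ‖O₂' φ‖) + N(c) e ≤ G ((1 + 2κ) ‖O(c) φ‖ +
N(c) ‖b_K φ‖) + N(c) e`. -/
def GNSs : Prop := ∀ (n : Type) [Fintype n] [DecidableEq n] (K : ℕ) (γ b : Fin K → Matrix n n ℂ)
  (ζ : Fin K → ℂ) (sg : Fin K → Fin K → ℂ) (φ : n → ℂ) (κ : ℝ), 0 ≤ κ →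
  (∀ k, (γ k).IsHermitian ∧ γ k * γ k = 1) →
  (∀ j k, j < k → (sg k j = 1 ∨ sg k j = -1) ∧ γ k * γ j = sg k j • (γ j * γ k) ∧
    b k * γ j = sg k j • (γ j * b k)) →
  (∀ k, ‖ζ k‖ = 1 ∧ b k * γ k + γ k * b k = (2 * ζ k) • (1 : Matrix n n ℂ) ∧
    ∀ f, normSq (b k *ᵥ f) ≤ (2 * κ) ^ 2 * normSq f) →
  ∀ c : (Fin K → Bool) → ℂ,
    (∑ s, ‖c s‖) * Real.sqrt (normSq φ) ≤
      (1 + 2 * κ) ^ K * Real.sqrt (normSq ((∑ s, c s • word γ s) *ᵥ φ)) +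
        (∑ s, ‖c s‖) * ∑ k : Fin K, (1 + 2 * κ) ^ (k : ℕ) * Real.sqrt (normSq (b k *ᵥ φ))

/-- Span. PROOF. Let `M = Fin m × Fin m → Fin 2`, `e = blk N m` (injective for `m ≤ N + 1`). (1) Every
`bm N m k` is `loc e W` for some `W : Matrix M M ℂ`: for `j < m`, `Ao j` and `Bo j` are `loc` of the block
`[0, m)` of the ring (`Q299/PL/BL.lean`: `Ao_isU`, `Bo_isU` give `iota hm W`, which is `loc` for the
embedding `Fin m → Fin (N + 1)`, compare the entries), use `loc_loc` twice and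
`row y (j) = e (j, y)` for `y < m`. (2) By `loc_mul`, `loc_one` every word is `loc e (w s)`. (3) The linear map
`Θ c = ∑ c s • w s`, from `ℂ^(2^(2 m²))` to `Matrix M M ℂ` (of dimension `4^(m²)`), is injective by the
hypothesis (`(∑ c s • word s) *ᵥ φ₀ = loc e (Θ c) *ᵥ φ₀`), so surjective. (4) Choose `c` with
`Θ c = Matrix.of fun a b => if a = 0 then v b else 0` (`≠ 0`, so `c ≠ 0`). Then
`(loc e (Θ c) *ᵥ χ) s = if s|_block = 0 then ∑_q v q χ (put e q s) else 0` and `put e q s = tpaste q s`. (See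
the proof of `main` in `Q299/PL/BL.lean`.) -/
def Span : Prop := ∀ (N m : ℕ) (φ₀ : (Site (N + 1) → Fin 2) → ℂ), m ≤ N + 1 →
  (∀ c : (Fin (m * (2 * m)) → Bool) → ℂ, (∑ s, c s • word (bm N m) s) *ᵥ φ₀ = 0 → c = 0) →
  ∀ v : (Fin m × Fin m → Fin 2) → ℂ, v ≠ 0 → ∃ c : (Fin (m * (2 * m)) → Bool) → ℂ, c ≠ 0 ∧
    ∀ χ : (Site (N + 1) → Fin 2) → ℂ, (∀ t, ∑ p, v p * χ (tpaste p t) = 0) →
      (∑ s, c s • word (bm N m) s) *ᵥ χ = 0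

/-- KernelPar. A kernel vector for all the parity sectors. PROOF: adapt `Q182/PL/PK.lean` (`main`). There
`φ (tpaste p t) = ∑_β F β p * G β t` (`h1`), `β` in a set with at most `D^(4m)` elements. Choose `v ≠ 0` in the
kernel of the `2^m D^(4m)` functionals `(ρ, β) ↦ ∑_p [∀ y < m, ∏_{x<m} sgn (p (x, y)) = ρ y] F β p * v p`,
where `ρ : Fin m → Bool` stands for signs. For a sector `σ` and `t`: the parity of the row `y ≥ m` of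
`tpaste p t` is that of `t`; if it is wrong for some `y ≥ m` then all the terms are `0`. The parity of the row
`y < m` is `∏_{x<m} sgn (p (x, y)) * ∏_{x≥m} sgn (t (x, y))`, so the condition for these rows says
`∏_{x<m} sgn (p (x, y)) = ρ y` with signs `ρ y` which depend on `σ` and `t` only (if `-σ y` is not `±1` there
are no terms). -/
def KernelPar : Prop := ∀ (N m D : ℕ) (φ : (Site (N + 1) → Fin 2) → ℂ), m < N + 1 →
  2 ^ m * D ^ (4 * m) < 2 ^ (m * m) → IsPEPS D φ →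
  ∃ v : (Fin m × Fin m → Fin 2) → ℂ, v ≠ 0 ∧
    ∀ (σ : ZMod (N + 1) → ℝ) (t : Site (N + 1) → Fin 2), ∑ p, v p * sec σ φ (tpaste p t) = 0

/-- SecE. From the ring to the torus, in one sector. PROOF. `Q68/PL/TH.lean`: `ham_eq` says that
`ham (ising lam) (N + 1)` is the sum over the rows `y` of `ringH` acting on the row `y`; show from it (or from
`row_sum`, `term_nf`) that it is `∑ y, loc (row y) (ringH lam N)`. For every row `y`: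
by `ip_loc` `2^(N+1) ip χ (loc (row y) ringH χ) = ∑_s ip f_s (ringH f_s)`, `f_s = fun q => χ (put (row y) q s)`,
and `f_s` satisfies `InPar (σ y)` (`InSec σ χ` for the row `y`). Apply the hypothesis to `f_s` and sum over
`s`, with `normSq_slices` and `normSq_loc`; sum over `y`. -/
def SecE : Prop := ∀ (N : ℕ) (lam E : ℝ) (R : ℝ → Matrix (Fin (N + 1)) (Fin (N + 1)) ℝ), 1 ≤ N →
  (∀ ε : ℝ, ε = 1 ∨ ε = -1 → ∀ f : Cf N → ℂ, InPar ε f →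
    E * normSq f + (1 / 2) * ∑ k, normSq (annih (R ε) (ev k) *ᵥ f) ≤ (ip f (ringH lam N *ᵥ f)).re) →
  ∀ (σ : ZMod (N + 1) → ℝ) (χ : (Site (N + 1) → Fin 2) → ℂ), (∀ y, σ y = 1 ∨ σ y = -1) →
    InSec σ χ → ((N : ℝ) + 1) * E * normSq χ + (1 / 2) * ∑ v, nn R σ χ v ≤
      (ip χ (ham (ising lam) (N + 1) *ᵥ χ)).re

/-- SecSum. The Hamiltonian preserves the parities of the rows. PROOF. For `b : ZMod (N + 1) → Bool` let
`σ_b y = if b y then 1 else -1`. Every `s` is in exactly one sector (`∏ sgn = ±1`), so `φ = ∑_b sec σ_b φ`,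
`normSq φ = ∑_b normSq (sec σ_b φ)`. An entry `ham s t ≠ 0` only if `s`, `t` have the same parities in all
rows (`Q68/PL/TH.lean`: `term_nf`, `nf`: `t = s` or two flips in one row), so
`ip φ (ham φ) = ∑_(s,t) conj (φ s) ham s t φ t = ∑_b ip (sec σ_b φ) (ham (sec σ_b φ))`. -/
def SecSum : Prop := ∀ (N : ℕ) (lam c : ℝ) (φ : (Site (N + 1) → Fin 2) → ℂ), 1 ≤ N →
  (∀ σ : ZMod (N + 1) → ℝ, (∀ y, σ y = 1 ∨ σ y = -1) →
    c * normSq (sec σ φ) ≤ (ip (sec σ φ) (ham (ising lam) (N + 1) *ᵥ sec σ φ)).re) →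
  c * normSq φ ≤ (ip φ (ham (ising lam) (N + 1) *ᵥ φ)).re

/-- TorCov. Translations of the torus. PROOF from CovX (may be assumed). It is enough to show it for
`u = (1, 0)` and `u = (0, 1)` (induction; `tr u (tr u' χ) = tr (u + u') χ`, and
`InSec (fun y => σ (y - u.2)) (tr u χ)`: the row `y` of `s ∘ (+u)` is the rotated row `y + u.2` of `s`).
`u = (1, 0)`: by `normSq_loc` `2^(N+1) nn R σ (tr u χ) (x + 1, y) = ∑_s normSq (annih (R (σ y)) (ev (x + 1)) *ᵥ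
fun q => (tr u χ) (put (row y) q s))` and `(tr u χ) (put (row y) q s) =
χ (put (row y) (q ∘ (+1)) (s ∘ (+u)))`; CovX for `f = fun q => χ (put (row y) q (s ∘ (+u)))` (`InPar (σ y) f`
by `InSec σ χ`) and the bijection `s ↦ s ∘ (+u)`. `u = (0, 1)`:
`(tr u χ) (put (row (y + 1)) q s) = χ (put (row y) q (s ∘ (+u)))`. -/
def TorCov : Prop := ∀ (N : ℕ) (lam : ℝ) (R : ℝ → Matrix (Fin (N + 1)) (Fin (N + 1)) ℝ), 0 < lam →
  Roots lam N R → ∀ (σ : ZMod (N + 1) → ℝ) (χ : (Site (N + 1) → Fin 2) → ℂ),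
  (∀ y, σ y = 1 ∨ σ y = -1) → InSec σ χ → ∀ u v : Site (N + 1),
    nn R (fun y => σ (y - u.2)) (tr u χ) v = nn R σ χ (v - u)

/-- LocalC. The local lower bound. PROOF from GNSs, DualW, Span, RingE. `κ = 2 kap m lam`. For the row
`y < m` and `j < 2m` let `w_j^ε` be the vector of DualW for `R ε` and the generator `gm j` (`p = e_(j/2)`,
`r = 0` for even `j`; `p = 0`, `r = e_(j/2)` for odd `j`) and `b_(y,j) = loc (row y) (annih (R (σ y)) w_j)`. As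
in `Rw.main` the hypotheses of GNSs hold (signs `-1` in the same row, `1` for different rows, `loc_comm`).
`Span` gives `c ≠ 0` with `O(c) χ = 0`, so `‖χ‖ ≤ (1 + 4 kap)^(2m²) ∑_(y,j) ‖b_(y,j) χ‖`, and
`‖b_(y,j) χ‖² ≤ (∑_x |w_j x|) ∑_x |w_j x| nn R σ χ (x, y)`. `W x = ∑_ε ∑_j (∑|w_j^ε|) |w_j^ε x|`. -/
def LocalC : Prop := ∀ (lam : ℝ), 0 < lam → lam < 1 → ∀ (N m : ℕ)
  (R : ℝ → Matrix (Fin (N + 1)) (Fin (N + 1)) ℝ), 1 ≤ m → 2 * m ≤ N + 1 →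
  6 * m * lam ^ (N + 1 - 2 * m) ≤ hh m lam * (1 - lam) → Roots lam N R →
  ∃ W : Fin (N + 1) → ℝ, (∀ x, 0 ≤ W x) ∧
    ∑ x, W x ≤ 72 * (m : ℝ) ^ 2 * kap m lam ^ 4 / (1 - lam) ^ 2 ∧
    ∀ (σ : ZMod (N + 1) → ℝ) (χ : (Site (N + 1) → Fin 2) → ℂ), (∀ y, σ y = 1 ∨ σ y = -1) →
    ∀ v : (Fin m × Fin m → Fin 2) → ℂ, v ≠ 0 → (∀ t, ∑ p, v p * χ (tpaste p t) = 0) →
      normSq χ ≤ 2 * (m : ℝ) ^ 2 * (1 + 4 * kap m lam) ^ (4 * m ^ 2) *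
        ∑ y : Fin m, ∑ x : Fin (N + 1), W x * nn R σ χ ((x : ZMod (N + 1)), ((y : ℕ) : ZMod (N + 1)))

/-- NumE. Numerics. `hh m lam = lam^(2m-1) / (2 49^m)`, `kap m lam = 10 / (hh m lam (1 - lam)) ≥ 20`. PROOF.
`kap m lam ≤ K^m` for some `K = K(lam) ≥ 1`, so `1 + 4 kap ≤ (5 K)^m`, and
`288 m⁵ / (1-lam)² kap⁴ (1 + 4 kap)^(4 m²) ≤ exp (C m³)`; see `Q224/PL/NU.lean` for PL.Num. (2) For `D ≥ 1` let
`m` be the least natural number with `2 D⁴ < 2^m`; `1 ≤ m ≤ 2 + 4 log D / log 2 ≤ 6 (1 + log D)`, and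
`2^m D^(4m) = (2 D⁴)^m < 2^(m m)`. -/
def NumE : Prop := ∀ lam : ℝ, 0 < lam → lam < 1 → ∃ C : ℝ, 1 ≤ C ∧
  (∀ m N : ℕ, 1 ≤ m → C * m ≤ N + 1 →
    m < N + 1 ∧ 2 * m ≤ N + 1 ∧ 6 * m * lam ^ (N + 1 - 2 * m) ≤ hh m lam * (1 - lam)) ∧
  (∀ m : ℕ, 1 ≤ m → 288 * (m : ℝ) ^ 5 * kap m lam ^ 4 * (1 + 4 * kap m lam) ^ (4 * m ^ 2) /
    (1 - lam) ^ 2 ≤ Real.exp (C * (m : ℝ) ^ 3)) ∧
  ∀ D : ℕ, 1 ≤ D → ∃ m : ℕ, 1 ≤ m ∧ (m : ℝ) ≤ 6 * (1 + Real.log D) ∧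
    2 ^ m * D ^ (4 * m) < 2 ^ (m * m)

/-- EnergyTrace. The energy of a translation invariant vector (up to phases) and its reduced density matrix.
PROOF. `ham = ∑_u term u`. `ip φ (term u φ) = ip φ (term 0 φ)` by the change of variables
`s ↦ s ∘ (+u)` in both sums and `φ (s ∘ (+u)) = c φ s`, `|c| = 1`. `ip φ (term 0 φ) =
∑_(s,t) conj (φ s) [s = t off B] h (s|B) (t|B) φ t = ∑_(a,b) h a b ∑_(s,t) [Ker a b s t] conj (φ s) φ t =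
∑_(a,b) h a b rdm b a`. -/
def EnergyTrace : Prop := ∀ (L : ℕ) [NeZero L] (B : Finset (ℤ × ℤ))
  (h : Matrix (B → Fin 2) (B → Fin 2) ℂ) (φ : (Site L → Fin 2) → ℂ),
  (∀ u : Site L, ∃ c : ℂ, ‖c‖ = 1 ∧ ∀ s : Site L → Fin 2, (φ fun v => s (v + u)) = c * φ s) →
    ip φ (Pool.Agent.H4R2.ham B h L *ᵥ φ) =
      (L : ℂ) ^ 2 * (h * Pool.Agent.H4R2.rdm (fun x : B => Pool.Agent.H4R2.toTorus L x) φ).trace

open Classical in
/-- the interaction `h` on `B`, as an interaction on a larger region -/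
noncomputable def lift {B R : Finset (ℤ × ℤ)} (hBR : B ⊆ R) (h : Matrix (B → Fin 2) (B → Fin 2) ℂ) :
    Matrix (R → Fin 2) (R → Fin 2) ℂ := fun a b =>
  if ∀ x : R, (x : ℤ × ℤ) ∉ B → a x = b x then
    h (fun x => a ⟨x, hBR x.2⟩) (fun x => b ⟨x, hBR x.2⟩) else 0

/-- LiftHam. PROOF: compare the entries of the terms at `u`; `toTorus L` is injective on `R`, so the condition
`s = t` off `toTorus R + u` together with `s (toTorus x + u) = t (toTorus x + u)` for `x ∈ R \ B` is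
`s = t` off `toTorus B + u`. (2) `lift h = loc e h` for the embedding `e : B → R`; by `normSq_loc_le`. -/
def LiftHam : Prop := ∀ (B R : Finset (ℤ × ℤ)) (hBR : B ⊆ R) (h : Matrix (B → Fin 2) (B → Fin 2) ℂ),
  (∀ (L : ℕ) [NeZero L], Set.InjOn (Pool.Agent.H4R2.toTorus L) (R : Set (ℤ × ℤ)) →
    Pool.Agent.H4R2.ham R (lift hBR h) L = Pool.Agent.H4R2.ham B h L) ∧
  ∀ c : ℝ, (∀ f, normSq (h *ᵥ f) ≤ c * normSq f) →
    ∀ f : (R → Fin 2) → ℂ, normSq (lift hBR h *ᵥ f) ≤ c * normSq f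

/-- TransInv. The ground states of the torus are translation invariant up to phases. PROOF.
`H := ham (ising lam) L` commutes with the translations: `H s t = H (s ∘ (+u)) (t ∘ (+u))` (reindex the sum
over the terms). So `Ψ' = fun s => Ψ (s ∘ (+u))` is an eigenvector for the same eigenvalue `E`, thus
`Ψ' = c Ψ`, and `normSq Ψ' = normSq Ψ = 1` gives `‖c‖ = 1`. (2) for PEPS vectors of one tensor: reindex the
sums over `h`, `v` and the product. -/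
def TransInv : Prop :=
  (∀ (L : ℕ) [NeZero L] (lam Δ : ℝ) (Ψ : (Site L → Fin 2) → ℂ), normSq Ψ = 1 →
    IsGappedGround (ham (ising lam) L) Δ Ψ → ∀ u : Site L, ∃ c : ℂ, ‖c‖ = 1 ∧
      ∀ s : Site L → Fin 2, (Ψ fun v => s (v + u)) = c * Ψ s) ∧
  ∀ (L D : ℕ) [NeZero L] (A : Pool.Agent.H4R2.Tensor 2 D) (u : Site L) (s : Site L → Fin 2),
    (Pool.Agent.H4R2.contract A L fun v => s (v + u)) = Pool.Agent.H4R2.contract A L s

/-- PepsTr. Translates of PEPS vectors are PEPS vectors. PROOF: as `contract_shift` in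
`Q241/PL/PKA.lean`: the tensors `A' v = A (v - u)`. -/
def PepsTr : Prop := ∀ (N D : ℕ) (φ : (Site (N + 1) → Fin 2) → ℂ) (u : Site (N + 1)),
  IsPEPS D φ → IsPEPS D (tr u φ)

/-- FinalE: the energy theorem. -/
def FinalE : Prop := ∀ lam : ℝ, 0 < lam → lam < 1 → ∃ C : ℝ, 1 ≤ C ∧ ∀ N : ℕ, 1 ≤ N →
  ∃ (E : ℝ) (Ψ : Cf N → ℂ), IsGround (ringH lam N) E (2 * (1 - lam)) Ψ ∧
    ∀ D : ℕ, 1 ≤ D → C * (1 + Real.log D) ≤ N + 1 → ∀ φ : (Site (N + 1) → Fin 2) → ℂ, IsPEPS D φ →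
      (((N : ℝ) + 1) * E + ((N : ℝ) + 1) ^ 2 * Real.exp (-(C * (1 + Real.log D) ^ 3))) * normSq φ ≤
        (ip φ (ham (ising lam) (N + 1) *ᵥ φ)).re

end Pool.Agent.Q234.PE
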